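import Pool.Agent.Y261.CH.Blv

/-!
Bombieri-Vinogradov for products of a prime and an element of an arbitrary set, for all moduli (adapted from
`Pool.Agent.Y261.CH.Blv1` and `Pool.Agent.Y261.CH.Blv` of helper261, where the moduli are squarefree).
-/

set_option autoImplicit false

namespace Pool.Agent.X32.CL

open Finset Filter H343E Pool.Agent.H398R2.BV Pool.Agent.TH423.SH.PSUa Pool.Agent.Helper112
  Pool.Agent.Y843.CH Pool.Agent.Y261.CH

open Classical in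
/-- the statement `St_BLV` of `Pool.Agent.Y843.CH` for all moduli -/
def St_BLV2 : Prop := ∀ m₀ κ U : ℕ, 1 ≤ m₀ → 1 ≤ κ → ∃ X₀ : ℕ, ∀ X : ℕ, X₀ ≤ X → ∀ M₀ M₁ Y : ℕ,
  (X : ℝ) ^ (1 / 9 : ℝ) ≤ M₀ → M₀ ≤ M₁ → (M₁ : ℝ) ≤ (X : ℝ) ^ (2 / 5 : ℝ) → M₁ * Y ≤ 5 * X →
  ∀ T : Finset ℕ, (∀ n ∈ T, 1 ≤ n ∧ n ≤ Y ∧ ∀ p ∈ n.primeFactors, (X : ℝ) ^ (1 / 9 : ℝ) ≤ (p : ℝ)) →
  ∀ r : ℕ → ℕ,
    ∑ d ∈ (Icc 1 ⌊m₀ * (X : ℝ) ^ (4995 / 10000 : ℝ)⌋₊).filter (fun d => (r d).Coprime d),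
      (κ : ℝ) ^ d.primeFactors.card *
      |(((((Ioc M₀ M₁).filter Nat.Prime) ×ˢ T).filter (fun x => x.1 * x.2 ≡ r d [MOD d])).card : ℝ) -
        ((((Ioc M₀ M₁).filter Nat.Prime).card : ℝ) * T.card) / (Nat.totient d : ℝ)| ≤ X / Real.log X ^ U

open Classical in
lemma comb2 (M₁ Y Q : ℕ) (α β : ℕ → ℝ) (D : Finset ℕ) (r : ℕ → ℕ)
    (hD : ∀ m ∈ D, m ≠ 0 ∧ m ≤ Q ∧ (r m).Coprime m) :
    ∑ m ∈ D, |∑ b ∈ Icc 1 M₁, ∑ c ∈ Icc 1 Y, α b * β c *
        ((if b * c ≡ r m [MOD m] then (1 : ℝ) else 0) -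
          (if (b * c).Coprime m then (1 : ℝ) / (Nat.totient m : ℝ) else 0))| ≤
    ∑ g ∈ Icc 1 Q, (1 / (Nat.totient g : ℝ)) * ∑ f ∈ Icc 2 Q, (1 / (Nat.totient f : ℝ)) *
      BLB.P M₁ Y (BLB.res g α) (BLB.res g β) f := by
  set G : ℕ → ℕ → ℝ := fun g f => (1 / (Nat.totient g : ℝ)) * ((1 / (Nat.totient f : ℝ)) *
    BLB.P M₁ Y (BLB.res g α) (BLB.res g β) f) with hG
  have hG0 : ∀ g f, 0 ≤ G g f := fun g f =>
    mul_nonneg (by positivity) (mul_nonneg (by positivity) (BLB.P_nonneg _ _ _ _ _))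
  have s3 : ∑ m ∈ D, |∑ b ∈ Icc 1 M₁, ∑ c ∈ Icc 1 Y, α b * β c *
        ((if b * c ≡ r m [MOD m] then (1 : ℝ) else 0) -
          (if (b * c).Coprime m then (1 : ℝ) / (Nat.totient m : ℝ) else 0))| ≤
      ∑ m ∈ D, ∑ f ∈ m.divisors.filter (fun f => f ≠ 1), G (m / f) f := by
    apply sum_le_sum
    intro m hm
    obtain ⟨hs, hle, hcop⟩ := hD m hm
    have hm0 : m ≠ 0 := hs
    refine (BLB.step12 M₁ Y α β m hm0 (r m) hcop).trans ?_
    apply sum_le_sum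
    intro f hf
    rw [mem_filter, Nat.mem_divisors] at hf
    obtain ⟨⟨⟨g, rfl⟩, -⟩, hf1⟩ := hf
    have hf0 : 0 < f := Nat.pos_of_ne_zero (by rintro rfl; simp at hm0)
    have hg0 : 0 < g := Nat.pos_of_ne_zero (by rintro rfl; simp at hm0)
    rw [Nat.mul_div_cancel_left g hf0]
    have htf : (0:ℝ) < Nat.totient f := by exact_mod_cast Nat.totient_pos.mpr hf0
    have htg0 : (0:ℝ) < Nat.totient g := by exact_mod_cast Nat.totient_pos.mpr hg0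
    have hsm : (Nat.totient f : ℝ) * Nat.totient g ≤ Nat.totient (f * g) := by
      exact_mod_cast Nat.totient_super_multiplicative f g
    have e5 : 1 / ((Nat.totient (f * g) : ℕ) : ℝ) ≤
        1 / (Nat.totient g : ℝ) * (1 / (Nat.totient f : ℝ)) := by
      rw [div_mul_div_comm, mul_one]
      apply div_le_div_of_nonneg_left (by norm_num) (by positivity)
      rw [mul_comm]
      exact hsm
    rw [hG]
    simp only
    rw [← mul_assoc]
    exact mul_le_mul_of_nonneg_right e5 (BLB.P_nonneg _ _ _ _ _)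
  refine s3.trans ?_
  have s4 : ∑ m ∈ D, ∑ f ∈ m.divisors.filter (fun f => f ≠ 1), G (m / f) f ≤
      ∑ g ∈ Icc 1 Q, ∑ f ∈ Icc 2 Q, G g f := by
    rw [sum_sigma', ← sum_product']
    have e6 : ∑ x ∈ D.sigma (fun m => m.divisors.filter (fun f => f ≠ 1)), G (x.1 / x.2) x.2 =
        ∑ p ∈ (D.sigma (fun m => m.divisors.filter (fun f => f ≠ 1))).image
          (fun x : (_ : ℕ) × ℕ => (x.1 / x.2, x.2)), G p.1 p.2 := by
      rw [sum_image]
      rintro ⟨m, f⟩ hx ⟨m', f'⟩ hx' heq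
      simp only [Finset.mem_coe, mem_sigma, mem_filter, Nat.mem_divisors] at hx hx'
      simp only [Prod.mk.injEq] at heq
      obtain ⟨h7, h8⟩ := heq
      subst h8
      have : m = m' := by
        rw [← Nat.div_mul_cancel hx.2.1.1, h7, Nat.div_mul_cancel hx'.2.1.1]
      subst this
      rfl
    rw [e6]
    apply sum_le_sum_of_subset_of_nonneg
    · intro p hp
      rw [mem_image] at hp
      obtain ⟨⟨m, f⟩, hx, rfl⟩ := hp
      simp only [mem_sigma, mem_filter, Nat.mem_divisors] at hx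
      obtain ⟨hs, hle, hcop⟩ := hD m hx.1
      have hm0 : 0 < m := Nat.pos_of_ne_zero hs
      have hfm := hx.2.1.1
      have hf0 : 0 < f := Nat.pos_of_dvd_of_pos hfm hm0
      simp only [mem_product, mem_Icc]
      have hf1 := hx.2.2
      refine ⟨⟨Nat.div_pos (Nat.le_of_dvd hm0 hfm) hf0, (Nat.div_le_self m f).trans hle⟩,
        by omega, (Nat.le_of_dvd hm0 hfm).trans hle⟩
    · intro p _ _
      exact hG0 _ _
  refine s4.trans (le_of_eq ?_)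
  refine sum_congr rfl fun g _ => ?_
  rw [hG, ← mul_sum]

lemma unw2 (m₀ V : ℕ) : ∃ X₀ : ℕ, ∀ X : ℕ, X₀ ≤ X → ∀ M₀ M₁ Y : ℕ,
    (X : ℝ) ^ (1 / 9 : ℝ) ≤ M₀ → M₀ ≤ M₁ → (M₁ : ℝ) ≤ (X : ℝ) ^ (2 / 5 : ℝ) → M₁ * Y ≤ 5 * X →
    ∀ T : Finset ℕ, (∀ n ∈ T, 1 ≤ n ∧ n ≤ Y ∧ ∀ p ∈ n.primeFactors,
      (X : ℝ) ^ (1 / 9 : ℝ) ≤ (p : ℝ)) →
    ∀ r : ℕ → ℕ, ∀ Q : ℕ, (Q : ℝ) ≤ m₀ * (X : ℝ) ^ (4995 / 10000 : ℝ) → ∀ D : Finset ℕ,
    (∀ d ∈ D, d ≠ 0 ∧ d ≤ Q ∧ (r d).Coprime d) →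
    Q ≤ X ∧ ∑ d ∈ D, EP M₀ M₁ T (r d) d ≤ X / Real.log X ^ V := by
  obtain ⟨k, hk⟩ := sum_pow_omega_div_totient 1 le_rfl
  obtain ⟨K, hK⟩ : ∃ K : ℕ, K = 2 ^ k := ⟨_, rfl⟩
  rw [← hK] at hk
  obtain ⟨C, hC⟩ : ∃ C : ℕ, C = K + V + 2 := ⟨_, rfl⟩
  obtain ⟨U', hU⟩ : ∃ U' : ℕ, U' = C + (K + V + 1) := ⟨_, rfl⟩
  obtain ⟨X1, hX1⟩ := bvU 1 U'
  obtain ⟨X2, hX2⟩ := ev 8 (3 * C) (1 / 9) (by norm_num)
  obtain ⟨X3, hX3⟩ := ev (2 ^ K * (40 + 72 * (4 + (m₀ : ℝ)))) (K + C + V + 2) (5 / 10000)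
    (by norm_num)
  obtain ⟨X4, hX4⟩ := ev (m₀ : ℝ) 0 (5005 / 10000) (by norm_num)
  obtain ⟨X5, hX5⟩ := Filter.eventually_atTop.mp
    ((Real.tendsto_log_atTop.comp (tendsto_natCast_atTop_atTop (R := ℝ))).eventually
      (Filter.eventually_ge_atTop ((2 : ℝ) ^ K * (20 * 9 ^ U' + 120) + 1)))
  obtain ⟨X6, hX6⟩ := Filter.eventually_atTop.mp
    (((tendsto_rpow_atTop (show (0 : ℝ) < 1 / 9 by norm_num)).comp
      (tendsto_natCast_atTop_atTop (R := ℝ))).eventually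
      (Filter.eventually_ge_atTop ((X1 : ℝ))))
  refine ⟨max (max (max X2 X3) (max X4 X5)) (max X6 2), ?_⟩
  intro X hX M₀ M₁ Y hM0 hMM hM1 hMY T hT r Q hQ D hD
  simp only [max_le_iff] at hX
  obtain ⟨⟨⟨x2, x3⟩, x4, x5⟩, x6, x7⟩ := hX
  have f2 := hX2 X x2
  have f3 := hX3 X x3
  have f4 := hX4 X x4
  have f5 := hX5 X x5
  have f6 := hX6 X x6
  simp only [Function.comp] at f5 f6
  rw [pow_zero, mul_one] at f4
  have hXr : (1 : ℝ) ≤ X := by exact_mod_cast (by omega : 1 ≤ X)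
  have hX0 : (0 : ℝ) < X := by linarith
  have hMMr : (M₀ : ℝ) ≤ M₁ := by exact_mod_cast hMM
  have hwM := hM0.trans hMMr
  have hMYr : (M₁ : ℝ) * Y ≤ 5 * X := by exact_mod_cast hMY
  have hQX : Q ≤ X := by
    have h1 : (Q : ℝ) ≤ X := by
      refine hQ.trans ?_
      calc (m₀ : ℝ) * (X : ℝ) ^ (4995 / 10000 : ℝ) ≤
          (X : ℝ) ^ (5005 / 10000 : ℝ) * (X : ℝ) ^ (4995 / 10000 : ℝ) := by gcongr
        _ = X := by
            rw [← Real.rpow_add hX0]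
            norm_num
    exact_mod_cast h1
  refine ⟨hQX, ?_⟩
  obtain ⟨L, hL⟩ : ∃ L : ℝ, L = Real.log X := ⟨_, rfl⟩
  have hLw : 1 / 9 * L ≤ Real.log M₁ := by
    rw [hL, ← Real.log_rpow hX0]
    exact Real.log_le_log (by positivity) hwM
  rw [← hL] at f2 f3 f5 ⊢
  have h9 : (0 : ℝ) < 9 ^ U' := by positivity
  have hK0 : (0 : ℝ) < 2 ^ K := by positivity
  have hL1 : 1 ≤ L := by
    have : 0 ≤ (2 : ℝ) ^ K * (20 * 9 ^ U' + 120) := by positivity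
    linarith
  have hL0 : 0 < L := by linarith
  obtain ⟨F0, hF0⟩ : ∃ F0 : ℕ, F0 = ⌈L ^ C⌉₊ := ⟨_, rfl⟩
  have hLC : 1 ≤ L ^ C := one_le_pow₀ hL1
  have hF1 : L ^ C ≤ F0 := by rw [hF0]; exact Nat.le_ceil _
  have hF2 : (F0 : ℝ) ≤ 2 * L ^ C := by
    have h1 := Nat.ceil_lt_add_one (show 0 ≤ L ^ C by positivity)
    rw [← hF0] at h1
    linarith
  have hF3 : 1 ≤ F0 := by
    have h1 : (1 : ℝ) ≤ F0 := hLC.trans hF1
    exact_mod_cast h1
  have hF4 : F0 ^ 3 ≤ 1 ^ 3 * M₁ := by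
    have h1 : (F0 : ℝ) ^ 3 ≤ M₁ := by
      calc (F0 : ℝ) ^ 3 ≤ (2 * L ^ C) ^ 3 := pow_le_pow_left₀ (Nat.cast_nonneg _) hF2 3
        _ = 8 * L ^ (3 * C) := by
            rw [mul_pow, ← pow_mul, mul_comm C 3]
            norm_num
        _ ≤ _ := f2
        _ ≤ M₁ := hwM
    rw [one_pow, one_mul]
    exact_mod_cast h1
  have hM1X : X1 ≤ M₁ := by
    have h1 : (X1 : ℝ) ≤ M₁ := f6.trans hwM
    exact_mod_cast h1
  have hE1 := hX1 M₁ hM1X M₁ le_rfl F0 hF4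
  have hE0 := hX1 M₁ hM1X M₀ hMM F0 hF4
  obtain ⟨E, hE⟩ : ∃ E : ℝ, E = M₁ / Real.log M₁ ^ U' := ⟨_, rfl⟩
  rw [← hE] at hE1 hE0
  have hEb : E ≤ M₁ * 9 ^ U' / L ^ U' := by
    have h1 : (1 / 9 * L) ^ U' ≤ Real.log M₁ ^ U' := pow_le_pow_left₀ (by positivity) hLw U'
    have h2 : (M₁ : ℝ) * 9 ^ U' / L ^ U' = M₁ / (1 / 9 * L) ^ U' := by
      rw [mul_pow, one_div, inv_pow]
      field_simp
    rw [h2, hE]
    exact div_le_div_of_nonneg_left (Nat.cast_nonneg _) (by positivity) h1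
  have hEnn : 0 ≤ E := (sum_nonneg fun f _ => ee_nonneg M₁ f).trans hE1
  have hlQ : Real.log Q ≤ L := by
    rcases Nat.eq_zero_or_pos Q with hq | hq
    · rw [hq, Nat.cast_zero, Real.log_zero]
      exact hL0.le
    · rw [hL]
      exact Real.log_le_log (by exact_mod_cast hq) (by exact_mod_cast hQX)
  have hlQ0 : 0 ≤ Real.log Q := Real.log_natCast_nonneg Q
  have hT' : ∀ n ∈ T, 1 ≤ n ∧ n ≤ Y := fun n hn => ⟨(hT n hn).1, (hT n hn).2.1⟩
  have hHH : ∑ g ∈ Icc 1 Q, 1 / (Nat.totient g : ℝ) ≤ (2 * L) ^ K := by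
    have h1 := hk Q
    simp only [one_pow] at h1
    exact h1.trans (pow_le_pow_left₀ (by linarith) (by linarith) K)
  obtain ⟨Z, hZ⟩ : ∃ Z : ℝ, Z = (X : ℝ) ^ (9995 / 10000 : ℝ) := ⟨_, rfl⟩
  have hZ0 : 0 < Z := by rw [hZ]; positivity
  -- the main part
  have hom : ∀ g : ℕ, g ≠ 0 → g ≤ Q → (g.primeFactors.card : ℝ) ≤ 2 * L := by
    intro g hg hgQ
    have h1 := om_le g hg
    have h2 : Real.log g ≤ L := by
      rw [hL]
      exact Real.log_le_log (by exact_mod_cast Nat.pos_of_ne_zero hg)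
        (by exact_mod_cast hgQ.trans hQX)
    linarith
  obtain ⟨B1, hB1⟩ : ∃ B1 : ℝ, B1 = (20 * 9 ^ U' + 120) * X / L ^ (K + V + 1) +
      (20 + 72 * (4 + m₀)) * L ^ (C + 1) * Z := ⟨_, rfl⟩
  have hB10 : 0 ≤ B1 := by rw [hB1]; positivity
  have hper : ∀ g ∈ Icc 1 Q, (1 / (Nat.totient g : ℝ)) * ∑ f ∈ Icc 2 Q,
      (1 / (Nat.totient f : ℝ)) * BLB.P M₁ Y (BLB.res g (al M₀)) (BLB.res g (be T)) f ≤
      (1 / (Nat.totient g : ℝ)) * B1 := by
    intro g hg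
    rw [mem_Icc] at hg
    apply mul_le_mul_of_nonneg_left _ (by positivity)
    have h1 := perg M₀ M₁ Y Q F0 g T hMM (by omega) hF3 (by omega) E hE1 hE0
    have h2 := pergb (x := X) (L := L) (E := E) (m₀ := m₀) (K := K) (V := V) (C := C) (U' := U')
      (M₁ := M₁) (Y := Y) (Q := Q) (F0 := F0) (g.primeFactors.card : ℝ) hXr hL1 hC hU hwM hM1
      hMYr hQ hlQ hF1 hF2 hEnn hEb (Nat.cast_nonneg _) (hom g (by omega) hg.2)
    rw [← hZ, ← hB1] at h2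
    exact h1.trans h2
  have hmain := (comb2 M₁ Y Q (al M₀) (be T) D r hD).trans (sum_le_sum hper)
  rw [← sum_mul] at hmain
  have hmain2 := hmain.trans (mul_le_mul_of_nonneg_right hHH hB10)
  -- the remaining part
  have hbad : ∀ d ∈ D, 1 / (Nat.totient d : ℝ) * BB M₀ M₁ T d ≤
      1 / (Nat.totient d : ℝ) * (20 * L ^ (C + 1) * Z) := by
    intro d hd
    obtain ⟨h1, h2, -⟩ := hD d hd
    have hd0 : d ≠ 0 := h1
    apply mul_le_mul_of_nonneg_left _ (by positivity)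
    have hw0 : (0 : ℝ) < (X : ℝ) ^ (1 / 9 : ℝ) := by positivity
    have h3 := BB_le M₀ M₁ Y T ((X : ℝ) ^ (1 / 9 : ℝ)) hw0 hT hwM d hd0
    have h4 : 2 * ((M₁ : ℝ) * Y) / (X : ℝ) ^ (1 / 9 : ℝ) ≤ 10 * Z := by
      rw [div_le_iff₀ hw0]
      have h5 : (X : ℝ) ≤ Z * (X : ℝ) ^ (1 / 9 : ℝ) := by
        rw [hZ, ← Real.rpow_add hX0]
        calc (X : ℝ) = (X : ℝ) ^ (1 : ℝ) := (Real.rpow_one _).symm
          _ ≤ _ := Real.rpow_le_rpow_of_exponent_le hXr (by norm_num)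
      linarith
    have h6 : L ≤ L ^ (C + 1) := by
      calc L = L ^ 1 := (pow_one L).symm
        _ ≤ L ^ (C + 1) := pow_le_pow_right₀ hL1 (by omega)
    calc BB M₀ M₁ T d ≤ (2 * L) * (10 * Z) :=
          h3.trans (mul_le_mul (hom d hd0 h2) h4 (by positivity) (by positivity))
      _ = 20 * L * Z := by ring
      _ ≤ 20 * L ^ (C + 1) * Z := by gcongr
  have hbad2 : ∑ d ∈ D, 1 / (Nat.totient d : ℝ) * BB M₀ M₁ T d ≤
      (2 * L) ^ K * (20 * L ^ (C + 1) * Z) := by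
    refine (sum_le_sum hbad).trans ?_
    rw [← sum_mul]
    apply mul_le_mul_of_nonneg_right _ (by positivity)
    refine le_trans (sum_le_sum_of_subset_of_nonneg ?_ ?_) hHH
    · intro d hd
      obtain ⟨h1, h2, -⟩ := hD d hd
      have hd0 : d ≠ 0 := h1
      exact mem_Icc.2 ⟨by omega, h2⟩
    · intro d _ _
      positivity
  have htot : ∑ d ∈ D, EP M₀ M₁ T (r d) d ≤ (2 * L) ^ K * B1 +
      (2 * L) ^ K * (20 * L ^ (C + 1) * Z) := by
    refine (sum_le_sum fun d _ => EP_E M₀ M₁ Y T hT' (r d) d).trans ?_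
    rw [sum_add_distrib]
    exact add_le_add hmain2 hbad2
  have htot2 : ∑ d ∈ D, EP M₀ M₁ T (r d) d ≤ (2 * L) ^ K *
      ((20 * 9 ^ U' + 120) * X / L ^ (K + V + 1) +
        (40 + 72 * (4 + (m₀ : ℝ))) * L ^ (C + 1) * Z) := by
    refine htot.trans (le_of_eq ?_)
    rw [hB1]
    ring
  exact arithB (y := (X : ℝ) ^ (5 / 10000 : ℝ)) hL0 hX0.le hZ0.le (by
    rw [hZ, ← Real.rpow_add hX0]
    norm_num) f3 f5 htot2

theorem blv2 : St_BLV2 := by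
  classical
  intro m₀ κ U hm hκ
  obtain ⟨k, hk⟩ := sum_pow_omega_div_totient ((κ : ℝ) ^ 2) (by
    have : (1:ℝ) ≤ κ := by exact_mod_cast hκ
    exact one_le_pow₀ this)
  obtain ⟨K, hK⟩ : ∃ K : ℕ, K = 2 ^ k := ⟨_, rfl⟩
  rw [← hK] at hk
  obtain ⟨X1, hX1⟩ := unw2 m₀ (K + 2 * U + 1)
  obtain ⟨X2, hX2⟩ := ev (m₀ : ℝ) 0 (1005 / 10000) (by norm_num)
  obtain ⟨X4, hX4⟩ := Filter.eventually_atTop.mp
    ((Real.tendsto_log_atTop.comp (tendsto_natCast_atTop_atTop (R := ℝ))).eventually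
      (Filter.eventually_ge_atTop ((11 : ℝ) * 2 ^ K + 1)))
  refine ⟨max (max X1 X4) (max 2 X2), ?_⟩
  intro X hX M₀ M₁ Y hM0 hMM hM1 hMY T hT r
  simp only [max_le_iff] at hX
  obtain ⟨⟨x1, x4⟩, x5, x2⟩ := hX
  obtain ⟨Q, hQd⟩ : ∃ Q : ℕ, Q = ⌊m₀ * (X : ℝ) ^ (4995 / 10000 : ℝ)⌋₊ := ⟨_, rfl⟩
  rw [← hQd]
  have hXr : (1 : ℝ) ≤ X := by exact_mod_cast (by omega : 1 ≤ X)
  have hX0 : (0 : ℝ) < X := by linarith
  have hQ : (Q : ℝ) ≤ m₀ * (X : ℝ) ^ (4995 / 10000 : ℝ) := by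
    rw [hQd]
    exact Nat.floor_le (by positivity)
  obtain ⟨D, hDd⟩ : ∃ D : Finset ℕ, D = (Icc 1 Q).filter
    (fun d => (r d).Coprime d) := ⟨_, rfl⟩
  have hD : ∀ d ∈ D, d ≠ 0 ∧ d ≤ Q ∧ (r d).Coprime d := by
    intro d hd
    rw [hDd, mem_filter, mem_Icc] at hd
    exact ⟨by omega, hd.1.2, hd.2⟩
  have hDQ : D ⊆ Icc 1 Q := by
    rw [hDd]
    exact filter_subset _ _
  obtain ⟨hQX, e1⟩ := hX1 X x1 M₀ M₁ Y hM0 hMM hM1 hMY T hT r Q hQ D hD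
  have f2 := hX2 X x2
  rw [pow_zero, mul_one] at f2
  have e4 := hX4 X x4
  simp only [Function.comp] at e4
  have hT' : ∀ n ∈ T, 1 ≤ n ∧ n ≤ Y := fun n hn => ⟨(hT n hn).1, (hT n hn).2.1⟩
  have hMYr : (M₁ : ℝ) * Y ≤ 5 * X := by exact_mod_cast hMY
  have goal : ∑ d ∈ D, (κ : ℝ) ^ d.primeFactors.card * EP M₀ M₁ T (r d) d ≤
      X / Real.log X ^ U := by
    obtain ⟨L, hL⟩ : ∃ L : ℝ, L = Real.log X := ⟨_, rfl⟩
    rw [← hL] at e1 e4 ⊢
    have hK0 : (0:ℝ) < 2 ^ K := by positivity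
    have hL1 : 1 ≤ L := by linarith
    have hL0 : 0 < L := by linarith
    have hlQ : Real.log Q ≤ L := by
      rcases Nat.eq_zero_or_pos Q with hq | hq
      · rw [hq, Nat.cast_zero, Real.log_zero]
        exact hL0.le
      · rw [hL]
        exact Real.log_le_log (by exact_mod_cast hq) (by exact_mod_cast hQX)
    have hlQ0 : 0 ≤ Real.log Q := Real.log_natCast_nonneg Q
    have h1 : ∑ d ∈ D, ((κ : ℝ) ^ d.primeFactors.card) ^ 2 * EP M₀ M₁ T (r d) d ≤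
        11 * X * (2 * L) ^ K := by
      calc ∑ d ∈ D, ((κ : ℝ) ^ d.primeFactors.card) ^ 2 * EP M₀ M₁ T (r d) d ≤
          ∑ d ∈ D, 11 * X * (((κ : ℝ) ^ 2) ^ d.primeFactors.card / (Nat.totient d : ℝ)) := by
            apply sum_le_sum
            intro d hd
            obtain ⟨g1, g2, g3⟩ := hD d hd
            have hd0 : 0 < d := Nat.pos_of_ne_zero g1
            have h2 := EP_le M₀ M₁ Y T hT' (r d) d hd0 g3
            have hφ : (0 : ℝ) < Nat.totient d := by exact_mod_cast Nat.totient_pos.mpr hd0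
            have hφQ : (Nat.totient d : ℝ) ≤ Q := by
              exact_mod_cast (Nat.totient_le d).trans g2
            have hMφ : (M₁ : ℝ) * Nat.totient d ≤ X := by
              calc (M₁ : ℝ) * Nat.totient d ≤ (X : ℝ) ^ (2 / 5 : ℝ) *
                  (m₀ * (X : ℝ) ^ (4995 / 10000 : ℝ)) :=
                    mul_le_mul hM1 (hφQ.trans hQ) hφ.le (by positivity)
                _ ≤ (X : ℝ) ^ (2 / 5 : ℝ) *
                  ((X : ℝ) ^ (1005 / 10000 : ℝ) * (X : ℝ) ^ (4995 / 10000 : ℝ)) := by gcongr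
                _ = X := by
                    rw [← Real.rpow_add hX0, ← Real.rpow_add hX0]
                    norm_num
            have h3 : EP M₀ M₁ T (r d) d ≤ 11 * X / (Nat.totient d : ℝ) := by
              rw [le_div_iff₀ hφ]
              have h4 : (2 * ((M₁ : ℝ) * Y) / (Nat.totient d : ℝ) + M₁) * (Nat.totient d : ℝ) =
                  2 * (M₁ * Y) + M₁ * Nat.totient d := by
                field_simp
              have h5 := mul_le_mul_of_nonneg_right h2 hφ.le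
              linarith
            calc ((κ : ℝ) ^ d.primeFactors.card) ^ 2 * EP M₀ M₁ T (r d) d ≤
                ((κ : ℝ) ^ d.primeFactors.card) ^ 2 * (11 * X / (Nat.totient d : ℝ)) :=
                  mul_le_mul_of_nonneg_left h3 (by positivity)
              _ = 11 * X * (((κ : ℝ) ^ 2) ^ d.primeFactors.card / (Nat.totient d : ℝ)) := by
                  rw [← pow_mul, ← pow_mul, mul_comm 2 d.primeFactors.card]
                  ring
        _ ≤ ∑ d ∈ Icc 1 Q, 11 * X * (((κ : ℝ) ^ 2) ^ d.primeFactors.card /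
              (Nat.totient d : ℝ)) :=
            sum_le_sum_of_subset_of_nonneg hDQ fun d _ _ => by positivity
        _ = 11 * X * ∑ d ∈ Icc 1 Q, (((κ : ℝ) ^ 2) ^ d.primeFactors.card /
              (Nat.totient d : ℝ)) := by
            rw [mul_sum]
        _ ≤ 11 * X * (1 + Real.log Q) ^ K := mul_le_mul_of_nonneg_left (hk Q) (by positivity)
        _ ≤ 11 * X * (2 * L) ^ K := by
            apply mul_le_mul_of_nonneg_left _ (by positivity)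
            exact pow_le_pow_left₀ (by linarith) (by linarith) K
    have hcs : (∑ d ∈ D, (κ : ℝ) ^ d.primeFactors.card * EP M₀ M₁ T (r d) d) ^ 2 ≤
        (∑ d ∈ D, ((κ : ℝ) ^ d.primeFactors.card) ^ 2 * EP M₀ M₁ T (r d) d) *
          ∑ d ∈ D, EP M₀ M₁ T (r d) d := by
      apply Finset.sum_sq_le_sum_mul_sum_of_sq_eq_mul
      · intro d _
        have := EP_nonneg M₀ M₁ T (r d) d
        positivity
      · intro d _
        exact EP_nonneg M₀ M₁ T (r d) d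
      · intro d _
        ring
    have hA0 : 0 ≤ ∑ d ∈ D, EP M₀ M₁ T (r d) d :=
      sum_nonneg fun d _ => EP_nonneg M₀ M₁ T (r d) d
    have h6 : (∑ d ∈ D, (κ : ℝ) ^ d.primeFactors.card * EP M₀ M₁ T (r d) d) ^ 2 ≤
        (X / L ^ U) ^ 2 := by
      refine hcs.trans ?_
      calc (∑ d ∈ D, ((κ : ℝ) ^ d.primeFactors.card) ^ 2 * EP M₀ M₁ T (r d) d) *
          ∑ d ∈ D, EP M₀ M₁ T (r d) d ≤ (11 * X * (2 * L) ^ K) * (X / L ^ (K + 2 * U + 1)) :=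
            mul_le_mul h1 e1 hA0 (by positivity)
        _ = (X / L ^ U) ^ 2 * (11 * 2 ^ K / L) := by
            have e7 : L ^ (K + 2 * U + 1) = L ^ K * (L ^ U) ^ 2 * L := by
              rw [pow_succ, pow_add, mul_comm 2 U, pow_mul]
            rw [mul_pow, e7]
            field_simp
        _ ≤ (X / L ^ U) ^ 2 * 1 := by
            apply mul_le_mul_of_nonneg_left _ (by positivity)
            rw [div_le_one hL0]
            linarith
        _ = _ := mul_one _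
    exact le_of_pow_le_pow_left₀ (by norm_num) (by positivity) h6
  refine le_trans (le_of_eq ?_) goal
  rw [hDd]
  refine sum_congr ?_ fun d _ => ?_
  · congr
  · rw [EP, ← NN_card, PP]

end Pool.Agent.X32.CL
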