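import Pool.Agent.X32.CL.Err2

/-!
The classes of the two sieve problems for two linear forms (adapted from `Pool.Agent.Y843.CH.Enc` of helper843).
The numbers `p` and `n` are connected by `w p + H = s u n`, `s = 1` or `s = -1`.
-/

set_option autoImplicit false

namespace Pool.Agent.X32.CL

open Finset Filter Pool.Agent.W23.DC Pool.Agent.Y660.RP
open Pool.Agent.Y843.HS (Pr Pr_mem Pr_prime)
open Pool.Agent.Y843.QD (vZ dvd_vZ)
open Pool.Agent.Y843.HG (Adm Z0)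
open Pool.Agent.Y843.CH

/-- the class of `(s u x - H) / w` modulo `m` -/
noncomputable def Rc (u : ℕ) (w H s : ℤ) (m x : ℕ) : ℕ := (((s * u * x - H : ℤ) : ZMod m) * (w : ZMod m)⁻¹).val

/-- the class of `- H / w` modulo `m` -/
noncomputable def Cc (w H : ℤ) (m : ℕ) : ℕ := (((- H : ℤ) : ZMod m) * (w : ZMod m)⁻¹).val

theorem Rc_zero (u : ℕ) (w H s : ℤ) (m : ℕ) : Rc u w H s m 0 = Cc w H m := by
  unfold Rc Cc
  congr 3
  simp

theorem Rc_lt (u : ℕ) (w H s : ℤ) {m : ℕ} (hm : 0 < m) (x : ℕ) : Rc u w H s m x < m := by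
  have : NeZero m := ⟨hm.ne'⟩
  exact ZMod.val_lt _

theorem Cc_lt (w H : ℤ) {m : ℕ} (hm : 0 < m) : Cc w H m < m := by
  have : NeZero m := ⟨hm.ne'⟩
  exact ZMod.val_lt _

theorem Rc_iff (u : ℕ) (w H s : ℤ) {m : ℕ} (hm : 0 < m) (hw : IsCoprime (m : ℤ) w) (x p : ℕ) :
    p % m = Rc u w H s m x ↔ (m : ℤ) ∣ w * p + H - s * u * x := by
  have : NeZero m := ⟨hm.ne'⟩
  have hu : IsUnit ((w : ℤ) : ZMod m) := (ZMod.coe_int_isUnit_iff_isCoprime w m).2 hw
  have h1 : ((w : ℤ) : ZMod m) * ((w : ℤ) : ZMod m)⁻¹ = 1 := by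
    obtain ⟨v, hv⟩ := hu
    rw [← hv, ZMod.mul_inv_of_unit _ v.isUnit]
  unfold Rc
  rw [← ZMod.val_natCast, (ZMod.val_injective m).eq_iff, ← ZMod.intCast_zmod_eq_zero_iff_dvd]
  push_cast
  constructor
  · intro h
    rw [h]
    have : (w : ZMod m) * ((s * u * x - H) * (w : ZMod m)⁻¹) = ((w : ZMod m) * (w : ZMod m)⁻¹) * (s * u * x - H) := by ring
    rw [this, h1]
    ring
  · intro h
    have h2 : (w : ZMod m) * p = s * u * x - H := by
      have : (w : ZMod m) * p = (w * p + H - s * u * x) + (s * u * x - H) := by ring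
      rw [this, h, zero_add]
    rw [← h2]
    have : (w : ZMod m) * p * (w : ZMod m)⁻¹ = ((w : ZMod m) * (w : ZMod m)⁻¹) * p := by ring
    rw [this, h1, one_mul]

theorem Cc_iff (w H : ℤ) {m : ℕ} (hm : 0 < m) (hw : IsCoprime (m : ℤ) w) (p : ℕ) :
    p % m = Cc w H m ↔ (m : ℤ) ∣ w * p + H := by
  rw [← Rc_zero 0 w H 1 m, Rc_iff 0 w H 1 hm hw 0 p]
  simp

theorem cop_of {q : ℕ} (hq : q.Prime) {w : ℤ} (h : ¬ (q : ℤ) ∣ w) : IsCoprime (q : ℤ) w :=
  (Nat.prime_iff_prime_int.1 hq).coprime_iff_not_dvd.2 h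

theorem Cc_zero {w H : ℤ} {q : ℕ} (hq : q.Prime) (h : ¬ (q : ℤ) ∣ w) : Cc w H q = 0 ↔ q ∣ H.natAbs := by
  have h1 := Cc_iff w H hq.pos (cop_of hq h) 0
  rw [Nat.zero_mod] at h1
  rw [eq_comm, h1, ← Int.natCast_dvd]
  simp

theorem Rc_mod (u : ℕ) (w H s : ℤ) {m : ℕ} (x : ℕ) : Rc u w H s m (x % m) = Rc u w H s m x := by
  unfold Rc
  congr 2
  push_cast
  simp

/-- the classes for the primes -/
noncomputable def ZA2 (w H : ℤ) (Y : ℕ) (Om : ℕ → Finset ℕ) (q : ℕ) : Finset ℕ :=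
  if q ≤ Y then Om q else ({Cc w H q} : Finset ℕ).erase 0

/-- the classes for the products -/
noncomputable def ZT2 (u : ℕ) (w H s : ℤ) (Y : ℕ) (Om : ℕ → Finset ℕ) (q : ℕ) : Finset ℕ :=
  ((range q).erase 0).filter (fun x => Rc u w H s q x ∈ ZTp Y Om q)

theorem inj_Rc {u : ℕ} {w H s : ℤ} (hs : s = 1 ∨ s = -1) {q : ℕ} (hq : q.Prime) (hw : ¬ (q : ℤ) ∣ w)
    (hu : ¬ q ∣ u) : Set.InjOn (fun x : ℕ => Rc u w H s q x) (range q : Set ℕ) := by
  intro x hx y hy hxy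
  rw [mem_coe, mem_range] at hx hy
  have hc := cop_of hq hw
  have : NeZero q := ⟨hq.pos.ne'⟩
  have : Fact q.Prime := ⟨hq⟩
  -- a natural number with this class
  have hp0 : (Rc u w H s q x) % q = Rc u w H s q x := Nat.mod_eq_of_lt (Rc_lt u w H s hq.pos x)
  have h1 := (Rc_iff u w H s hq.pos hc x _).1 hp0
  have h2 := (Rc_iff u w H s hq.pos hc y _).1 (hp0.trans hxy)
  have h3 := dvd_sub h2 h1
  have h4 : w * ((Rc u w H s q x : ℕ) : ℤ) + H - s * u * y - (w * ((Rc u w H s q x : ℕ) : ℤ) + H - s * u * x) =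
      s * (u * ((x : ℤ) - y)) := by ring
  rw [h4] at h3
  have hpi := Nat.prime_iff_prime_int.1 hq
  have h5 : (q : ℤ) ∣ (x : ℤ) - y := by
    have h6 : (q : ℤ) ∣ u * ((x : ℤ) - y) := by
      rcases hs with rfl | rfl
      · simpa using h3
      · rw [neg_one_mul, dvd_neg] at h3
        exact h3
    rcases hpi.dvd_or_dvd h6 with h | h
    · exact absurd (Int.natCast_dvd_natCast.1 h) hu
    · exact h
  have h6 : y ≡ x [MOD q] := (Nat.modEq_iff_dvd).2 h5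
  exact (Nat.ModEq.eq_of_lt_of_lt h6 hy hx).symm

theorem card_pre2 {u : ℕ} {w H s : ℤ} (hs : s = 1 ∨ s = -1) {q : ℕ} (hq : q.Prime) (hw : ¬ (q : ℤ) ∣ w)
    (hu : ¬ q ∣ u) (S : Finset ℕ) (hS : ∀ c ∈ S, c < q) :
    ((range q).filter (fun x : ℕ => Rc u w H s q x ∈ S)).card = S.card := by
  classical
  have hinj := inj_Rc (H := H) hs hq hw hu
  have himg : (range q).image (fun x : ℕ => Rc u w H s q x) = range q := by
    apply eq_of_subset_of_card_le
    · intro c hc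
      rw [mem_image] at hc
      obtain ⟨x, _, rfl⟩ := hc
      exact mem_range.2 (Rc_lt u w H s hq.pos x)
    · rw [card_image_of_injOn hinj]
  apply card_nbij (fun x : ℕ => Rc u w H s q x)
  · intro x hx
    rw [mem_coe, mem_filter] at hx
    exact hx.2
  · exact hinj.mono (by
      intro x hx
      rw [mem_coe, mem_filter] at hx
      exact hx.1)
  · intro c hc
    have h1 : c ∈ (range q).image (fun x : ℕ => Rc u w H s q x) := by
      rw [himg]
      exact mem_range.2 (hS c hc)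
    rw [mem_image] at h1
    obtain ⟨x, hx, rfl⟩ := h1
    exact ⟨x, by rw [mem_coe, mem_filter]; exact ⟨hx, hc⟩, rfl⟩

theorem card_ZT2 {u : ℕ} {w H s : ℤ} (hs : s = 1 ∨ s = -1) {q : ℕ} (hq : q.Prime) (hw : ¬ (q : ℤ) ∣ w)
    (hu : ¬ q ∣ u) (Y : ℕ) (Om : ℕ → Finset ℕ)
    (h1 : q ≤ Y → 0 ∉ Om q ∧ (∀ c ∈ Om q, c < q) ∧ Cc w H q ∈ Z0 Om q) :
    (ZT2 u w H s Y Om q).card = (ZA2 w H Y Om q).card := by
  classical
  have hlt : ∀ c ∈ ZTp Y Om q, c < q := by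
    intro c hc
    unfold ZTp at hc
    split_ifs at hc with h2
    · unfold Z0 at hc
      rw [mem_insert] at hc
      rcases hc with rfl | hc
      · exact hq.pos
      · exact (h1 h2).2.1 c hc
    · rw [mem_singleton] at hc
      rw [hc]
      exact hq.pos
  have h2 := card_pre2 (H := H) hs hq hw hu (ZTp Y Om q) hlt
  have h3 : ZT2 u w H s Y Om q = ((range q).filter (fun x : ℕ => Rc u w H s q x ∈ ZTp Y Om q)).erase 0 := by
    unfold ZT2
    ext x
    simp only [mem_filter, mem_erase]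
    tauto
  have h4 : 0 ∈ (range q).filter (fun x : ℕ => Rc u w H s q x ∈ ZTp Y Om q) ↔ Cc w H q ∈ ZTp Y Om q := by
    rw [mem_filter, Rc_zero]
    simp [hq.pos]
  rw [h3]
  by_cases hY : q ≤ Y
  · have h5 : Cc w H q ∈ ZTp Y Om q := by
      unfold ZTp
      rw [if_pos hY]
      exact (h1 hY).2.2
    rw [card_erase_of_mem (h4.2 h5), h2]
    unfold ZTp ZA2 Z0
    rw [if_pos hY, if_pos hY, card_insert_of_notMem (h1 hY).1]
    omega
  · unfold ZA2
    rw [if_neg hY]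
    by_cases h6 : Cc w H q = 0
    · have h5 : Cc w H q ∈ ZTp Y Om q := by
        unfold ZTp
        rw [if_neg hY, mem_singleton]
        exact h6
      rw [card_erase_of_mem (h4.2 h5), h2]
      unfold ZTp
      rw [if_neg hY, h6]
      simp
    · have h5 : Cc w H q ∉ ZTp Y Om q := by
        unfold ZTp
        rw [if_neg hY, mem_singleton]
        exact h6
      rw [erase_eq_of_notMem (fun h => h5 (h4.1 h)), h2]
      unfold ZTp
      rw [if_neg hY, erase_eq_of_notMem]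
      · simp
      · rw [mem_singleton]
        exact fun h => h6 h.symm

/-- the data -/
structure Dt (r z Y u : ℕ) (w H : ℤ) (Om : ℕ → Finset ℕ) : Prop where
  adm : Adm r Y Om
  hm : ∀ q ∈ Pr z Y, Cc w H q ∈ Z0 Om q
  cu : ∀ q : ℕ, q.Prime → z < q → ¬ q ∣ u
  cw : ∀ q : ℕ, q.Prime → z < q → ¬ (q : ℤ) ∣ w

variable {r z Y u : ℕ} {w H : ℤ} {Om : ℕ → Finset ℕ}

theorem Dt.cA (D : Dt r z Y u w H Om) {q : ℕ} (hq : q.Prime) :
    (ZA2 w H Y Om q).card ≤ r + 1 ∧ ∀ c ∈ ZA2 w H Y Om q, c < q ∧ c ≠ 0 := by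
  unfold ZA2
  split_ifs with h1
  · have h2 := D.adm q (Pr_mem.2 ⟨⟨hq.pos, h1⟩, hq⟩)
    exact ⟨h2.1.trans (Nat.le_succ r), fun c hc => ⟨h2.2.2.2 c hc, fun h3 => h2.2.2.1 (h3 ▸ hc)⟩⟩
  · constructor
    · refine (card_le_card (erase_subset _ _)).trans ?_
      rw [card_singleton]
      omega
    · intro c hc
      rw [mem_erase, mem_singleton] at hc
      exact ⟨hc.2 ▸ Cc_lt w H hq.pos, hc.1⟩

theorem Dt.clA (D : Dt r z Y u w H Om) (N : ℕ) : Cl (r + 1) z N (ZA2 w H Y Om) :=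
  ⟨fun _ hp => (D.cA (Pr_prime hp)).1, fun _ hp => (D.cA (Pr_prime hp)).2⟩

theorem Dt.cT (D : Dt r z Y u w H Om) {s : ℤ} (hs : s = 1 ∨ s = -1) {q : ℕ} (hq : q.Prime) (hz : z < q) :
    (ZT2 u w H s Y Om q).card = (ZA2 w H Y Om q).card :=
  card_ZT2 hs hq (D.cw q hq hz) (D.cu q hq hz) Y Om fun h1 => by
    have h3 := D.adm q (Pr_mem.2 ⟨⟨hq.pos, h1⟩, hq⟩)
    exact ⟨h3.2.2.1, h3.2.2.2, D.hm q (Pr_mem.2 ⟨⟨hz, h1⟩, hq⟩)⟩

theorem Dt.clT (D : Dt r z Y u w H Om) {s : ℤ} (hs : s = 1 ∨ s = -1) (N : ℕ) :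
    Cl (r + 1) z N (ZT2 u w H s Y Om) := by
  constructor
  · intro p hp
    rw [D.cT hs (Pr_prime hp) (Pr_mem.1 hp).1.1]
    exact (D.cA (Pr_prime hp)).1
  · intro p hp c hc
    unfold ZT2 at hc
    rw [mem_filter, mem_erase, mem_range] at hc
    exact ⟨hc.1.2, hc.1.1⟩

theorem Dt.gT (D : Dt r z Y u w H Om) {s : ℤ} (hs : s = 1 ∨ s = -1) {q : ℕ} (hq : q.Prime) (hz : z < q) :
    gC (ZT2 u w H s Y Om) q = gC (ZA2 w H Y Om) q := by
  unfold gC
  rw [D.cT hs hq hz]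

theorem Dt.dg (D : Dt r z Y u w H Om) (hzY : z ≤ Y) {v : ℝ} (hv : (Y : ℝ) < v) :
    Dg (r + 1) z v H.natAbs (gC (ZA2 w H Y Om)) := by
  constructor
  · intro p hp _
    have h1 := (D.cA hp).1
    have h2 : (0 : ℝ) < (p : ℝ) - 1 := by
      have : (1 : ℝ) < p := by exact_mod_cast hp.one_lt
      linarith
    unfold gC
    refine ⟨by positivity, ?_⟩
    apply div_le_div_of_nonneg_right _ h2.le
    exact_mod_cast h1
  · intro p hp hwp
    have h1 : ¬ p ≤ Y := by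
      intro h2
      have : (p : ℝ) ≤ Y := by exact_mod_cast h2
      linarith
    unfold gC ZA2
    rw [if_neg h1]
    have h3 := Cc_zero (H := H) hp (D.cw p hp (by omega))
    split_ifs with h4
    · rw [h3.2 h4]
      simp
    · rw [erase_eq_of_notMem, card_singleton, Nat.cast_one]
      rw [mem_singleton]
      exact fun h5 => h4 (h3.1 h5.symm)

theorem Dt.dgT (D : Dt r z Y u w H Om) (hzY : z ≤ Y) {s : ℤ} (hs : s = 1 ∨ s = -1) {v : ℝ}
    (hv : (Y : ℝ) < v) : Dg (r + 1) z v H.natAbs (gC (ZT2 u w H s Y Om)) := by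
  have h1 := D.dg hzY hv
  constructor
  · intro p hp hz
    rw [D.gT hs hp hz]
    exact h1.1 p hp hz
  · intro p hp hwp
    have h2 : z < p := by
      have h3 : (Y : ℝ) < p := lt_of_lt_of_le hv hwp
      have h4 : Y < p := by exact_mod_cast h3
      omega
    rw [D.gT hs hp h2]
    exact h1.2 p hp hwp

end Pool.Agent.X32.CL
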