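import Pool.Agent.Y840.CI.Top
import Pool.Agent.X32.CL.Blv2

/-!
The error terms of the two sieve problems for a fixed modulus that need not be squarefree (adapted from
`Pool.Agent.Y843.CH.Err`, `Pool.Agent.Y843.CH.Aer` of helper843 and `Pool.Agent.Y840.CI.Loc` of helper840).
-/

set_option autoImplicit false

namespace Pool.Agent.X32.CL

open Finset Filter Pool.Agent.W23.DC Pool.Agent.Y660.RP
open Pool.Agent.Y843.HS (Pr Pr_mem Pr_prime)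
open Pool.Agent.Y843.QD (vZ dvd_vZ)
open Pool.Agent.Y843.CH
open Pool.Agent.TH423.SH.PSUa (ee FF Rd FF_le_ee ee_nonneg)

open Classical in
/-- the sum of the remainders -/
theorem rr_sum2 {ι : Type} (Ω : Finset ι) (w : ι → ℕ) (κ z N m₀ a : ℕ) (hκ : 1 ≤ κ)
    (cl : ℕ → Finset ℕ) (hclκ : ∀ p ∈ Pr z N, (cl p).card ≤ κ)
    (hcl : ∀ p ∈ Pr z N, ∀ c ∈ cl p, c < p ∧ c ≠ 0) (hm₀ : 0 < m₀)
    (ha : a.Coprime m₀) (hcop : ∀ p ∈ Pr z N, ¬ p ∣ m₀) (T : ℝ) (E : ℕ → ℝ)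
    (hE0 : ∀ d, 0 ≤ E d) (D : ℝ) (hD0 : 0 ≤ D) (hD : D ≤ N)
    (hE : ∀ d : ℕ, 1 ≤ d → (d : ℝ) ≤ m₀ * D → ∀ c : ℕ, c < d → c.Coprime d →
      |((Ω.filter (fun i => w i ≡ c [MOD d])).card : ℝ) - T / (Nat.totient d : ℝ)| ≤ E d) :
    ∑ d ∈ Lv' z D, Rr (Ω.filter (fun i => w i ≡ a [MOD m₀])) (fun i => vZ cl z N (w i)) (gC cl)
      (T / (Nat.totient m₀ : ℝ)) d ≤
    ∑ d ∈ Icc 1 ⌊m₀ * D⌋₊, (κ : ℝ) ^ d.primeFactors.card * E d := by
  have hκr : (1 : ℝ) ≤ κ := by exact_mod_cast hκ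
  have hmem : ∀ d ∈ Lv' z D, (1 ≤ d ∧ (d : ℝ) ≤ D) ∧ Squarefree d ∧ ∀ p ∈ d.primeFactors, p ∈ Pr z N := by
    intro d hd
    unfold Lv' at hd
    rw [mem_filter, mem_Icc] at hd
    have h1 : (d : ℝ) ≤ D := (Nat.le_floor_iff hD0).1 hd.1.2
    refine ⟨⟨hd.1.1, h1⟩, hd.2.1, fun p hp => ?_⟩
    rw [Pr_mem]
    refine ⟨⟨hd.2.2 p hp, ?_⟩, Nat.prime_of_mem_primeFactors hp⟩
    have h2 : p ≤ d := Nat.le_of_mem_primeFactors hp
    have h3 : (p : ℝ) ≤ N := by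
      have : (p : ℝ) ≤ d := by exact_mod_cast h2
      linarith
    exact_mod_cast h3
  have hcopd : ∀ d ∈ Lv' z D, Nat.Coprime m₀ d := by
    intro d hd
    obtain ⟨⟨h1, h2⟩, h3, h4⟩ := hmem d hd
    rw [← Nat.prod_primeFactors_of_squarefree h3]
    apply Nat.Coprime.prod_right
    intro p hp
    exact ((Nat.prime_of_mem_primeFactors hp).coprime_iff_not_dvd.2 (hcop p (h4 p hp))).symm
  have hmem2 : ∀ d ∈ Lv' z D, m₀ * d ∈ Icc 1 ⌊m₀ * D⌋₊ := by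
    intro d hd
    obtain ⟨⟨h1, h2⟩, h3, h4⟩ := hmem d hd
    rw [mem_Icc]
    refine ⟨Nat.mul_pos hm₀ h1, Nat.le_floor ?_⟩
    push_cast
    gcongr
  have hstep : ∀ d ∈ Lv' z D, Rr (Ω.filter (fun i => w i ≡ a [MOD m₀])) (fun i => vZ cl z N (w i)) (gC cl)
      (T / (Nat.totient m₀ : ℝ)) d ≤ (κ : ℝ) ^ (m₀ * d).primeFactors.card * E (m₀ * d) := by
    intro d hd
    obtain ⟨⟨h1, h2⟩, h3, h4⟩ := hmem d hd
    have h6 := mem_Icc.1 (hmem2 d hd)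
    have h7 := rr_one Ω w z N m₀ a cl hcl hm₀ ha hcop T (E (m₀ * d)) d h3 h4
      (hE (m₀ * d) h6.1 (by push_cast; gcongr))
    refine h7.trans ?_
    apply mul_le_mul_of_nonneg_right _ (hE0 _)
    calc ∏ p ∈ d.primeFactors, ((cl p).card : ℝ) ≤ ∏ p ∈ d.primeFactors, (κ : ℝ) := by
          apply Finset.prod_le_prod
          · intro p _
            positivity
          · intro p hp
            exact_mod_cast hclκ p (h4 p hp)
      _ = (κ : ℝ) ^ d.primeFactors.card := by rw [prod_const]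
      _ ≤ (κ : ℝ) ^ (m₀ * d).primeFactors.card := by
          apply pow_le_pow_right₀ hκr
          apply card_le_card
          rw [Nat.primeFactors_mul hm₀.ne' (by omega)]
          exact subset_union_right
  refine (sum_le_sum hstep).trans ?_
  rw [← sum_image (f := fun d => (κ : ℝ) ^ d.primeFactors.card * E d) (g := fun d => m₀ * d)
    (fun d _ d' _ h => Nat.eq_of_mul_eq_mul_left hm₀ h)]
  apply sum_le_sum_of_subset_of_nonneg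
  · intro d hd
    rw [mem_image] at hd
    obtain ⟨e, he, rfl⟩ := hd
    exact hmem2 e he
  · intro d _ _
    exact mul_nonneg (by positivity) (hE0 d)


open Classical in
theorem aer2 (hB : St_BVW) (m₀ κ U : ℕ) (hκ : 1 ≤ κ) (h0 : 0 < m₀) : ∃ X₀ : ℕ, ∀ X : ℕ, X₀ ≤ X →
    ∀ N : ℕ, 1 ≤ N → N ^ 2 ≤ X → ∀ A B : ℕ, A ≤ B → B ≤ X →
    ∀ (z a : ℕ) (cl : ℕ → Finset ℕ), Cl κ z N cl → a.Coprime m₀ →
    (∀ p ∈ Pr z N, ¬ p ∣ m₀) →
    ∑ d ∈ Lv' z ((N : ℝ) ^ (999 / 1000 : ℝ)), Rr ((PNX A B).filter (fun p => p ≡ a [MOD m₀]))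
      (fun p => vZ cl z N p) (gC cl) ((PNX A B).card / (Nat.totient m₀ : ℝ)) d ≤ X / Real.log X ^ U := by
  obtain ⟨X₀, hX₀⟩ := hB m₀ κ (U + 1) hκ
  obtain ⟨X₁, hX₁⟩ := Pool.Agent.Y660.RP.ev_log 2
  refine ⟨max X₀ X₁, ?_⟩
  intro X hX N hN hNX A B hAB hBX z a cl hcl ha hcop
  have hAX : A ≤ X := hAB.trans hBX
  have hlog : 2 < Real.log X := hX₁ X ((le_max_right _ _).trans hX)
  have h1 := rr_sum2 (PNX A B) (fun p => p) κ z N m₀ a hκ cl hcl.card hcl.lt h0 ha hcop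
    ((PNX A B).card : ℝ) (fun d => ee B d + ee A d) (fun d => add_nonneg (ee_nonneg _ _) (ee_nonneg _ _))
    ((N : ℝ) ^ (999 / 1000 : ℝ)) (by positivity) (level_le' hN) (by
      intro d hd1 hd c hc hcd
      rw [card_PNX hAB, card_PNX' hAB]
      have e1 := FF_le_ee B d c hc hcd
      have e2 := FF_le_ee A d c hc hcd
      unfold FF at e1 e2
      calc |H343E.piAP B d c - H343E.piAP A d c - (H343E.pi1 B - H343E.pi1 A) / (Nat.totient d : ℝ)|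
          = |(H343E.piAP B d c - H343E.pi1 B / (Nat.totient d : ℝ)) -
            (H343E.piAP A d c - H343E.pi1 A / (Nat.totient d : ℝ))| := by
            congr 1
            ring
        _ ≤ _ := abs_sub _ _
        _ ≤ _ := add_le_add e1 e2)
  refine h1.trans ?_
  have hQ : ((⌊m₀ * (N : ℝ) ^ (999 / 1000 : ℝ)⌋₊ : ℕ) : ℝ) ≤ m₀ * (X : ℝ) ^ (4995 / 10000 : ℝ) := by
    refine (Nat.floor_le (by positivity)).trans ?_
    exact mul_le_mul_of_nonneg_left (level_le hNX) (Nat.cast_nonneg _)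
  have hX00 : X₀ ≤ X := (le_max_left _ _).trans hX
  have h2 := hX₀ X hX00 B hBX _ hQ
  have h3 := hX₀ X hX00 A hAX _ hQ
  simp only [mul_add, sum_add_distrib]
  have h5 : (X : ℝ) / Real.log X ^ (U + 1) + X / Real.log X ^ (U + 1) ≤ X / Real.log X ^ U := by
    rw [← add_div, pow_succ, div_le_div_iff₀ (by positivity) (by positivity)]
    have h6 : 0 < Real.log X ^ U := by positivity
    have h7 : (0 : ℝ) ≤ X := Nat.cast_nonneg _
    have h8 : (0 : ℝ) ≤ X * Real.log X ^ U := by positivity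
    nlinarith
  linarith

open Classical in
theorem ter2 (hB : St_BLV2) (m₀ κ U : ℕ) (hκ : 1 ≤ κ) (h0 : 0 < m₀) : ∃ X₀ : ℕ, ∀ X : ℕ, X₀ ≤ X →
    ∀ N : ℕ, 1 ≤ N → N ^ 2 ≤ X → ∀ (z a : ℕ) (cl : ℕ → Finset ℕ), Cl κ z N cl → a.Coprime m₀ →
    (∀ p ∈ Pr z N, ¬ p ∣ m₀) → ∀ M₀ M₁ Y : ℕ,
    (X : ℝ) ^ (1 / 9 : ℝ) ≤ M₀ → M₀ ≤ M₁ → (M₁ : ℝ) ≤ (X : ℝ) ^ (2 / 5 : ℝ) → M₁ * Y ≤ 5 * X →
    ∀ T : Finset ℕ, (∀ n ∈ T, 1 ≤ n ∧ n ≤ Y ∧ ∀ p ∈ n.primeFactors, (X : ℝ) ^ (1 / 9 : ℝ) ≤ (p : ℝ)) →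
    ∑ d ∈ Lv' z ((N : ℝ) ^ (999 / 1000 : ℝ)), Rr ((MN M₀ M₁ T).filter (fun x => x.1 * x.2 ≡ a [MOD m₀]))
      (fun x => vZ cl z N (x.1 * x.2)) (gC cl)
      ((((Ioc M₀ M₁).filter Nat.Prime).card * T.card : ℝ) / (Nat.totient m₀ : ℝ)) d ≤ X / Real.log X ^ U := by
  obtain ⟨X₀, hX₀⟩ := hB m₀ κ U h0 hκ
  refine ⟨X₀, ?_⟩
  intro X hX N hN hNX z a cl hcl ha hcop M₀ M₁ Y hM0 hM01 hM1 hMY T hT
  set F : ℕ → ℕ → ℝ := fun d c => |((((MN M₀ M₁ T)).filter (fun x => x.1 * x.2 ≡ c [MOD d])).card : ℝ) -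
    ((((Ioc M₀ M₁).filter Nat.Prime).card * T.card : ℝ)) / (Nat.totient d : ℝ)| with hF
  have hex : ∀ d : ℕ, 1 ≤ d → ∃ c ∈ Rd d, ∀ b ∈ Rd d, F d b ≤ F d c := by
    intro d hd
    apply exists_max_image
    rcases Nat.lt_or_ge 1 d with h | h
    · refine ⟨1, ?_⟩
      unfold Rd
      rw [mem_filter, mem_range]
      exact ⟨h, Nat.coprime_one_left d⟩
    · refine ⟨0, ?_⟩
      have : d = 1 := by omega
      subst this
      unfold Rd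
      simp
  set r : ℕ → ℕ := fun d => if h : 1 ≤ d then (hex d h).choose else 0 with hr
  have hr1 : ∀ d, 1 ≤ d → r d ∈ Rd d ∧ ∀ b ∈ Rd d, F d b ≤ F d (r d) := by
    intro d hd
    rw [hr]
    simp only [dif_pos hd]
    exact (hex d hd).choose_spec
  have h1 := rr_sum2 (MN M₀ M₁ T) (fun x => x.1 * x.2) κ z N m₀ a hκ cl hcl.card hcl.lt h0 ha hcop
    ((((Ioc M₀ M₁).filter Nat.Prime).card * T.card : ℝ)) (fun d => F d (r d)) (fun d => abs_nonneg _)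
    ((N : ℝ) ^ (999 / 1000 : ℝ)) (by positivity) (level_le' hN) (by
      intro d hd1 hd c hc hcd
      exact (hr1 d hd1).2 c (by
        unfold Rd
        rw [mem_filter, mem_range]
        exact ⟨hc, hcd⟩))
  refine h1.trans ?_
  refine le_trans ?_ (hX₀ X hX M₀ M₁ Y hM0 hM01 hM1 hMY T hT r)
  apply sum_le_sum_of_subset_of_nonneg
  · intro d hd
    rw [mem_filter, mem_Icc]
    rw [mem_Icc] at hd
    refine ⟨⟨hd.1, hd.2.trans ?_⟩, ?_⟩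
    · apply Nat.floor_le_floor
      exact mul_le_mul_of_nonneg_left (level_le hNX) (Nat.cast_nonneg _)
    · have := (hr1 d hd.1).1
      unfold Rd at this
      rw [mem_filter] at this
      exact this.2
  · intro d _ _
    positivity

end Pool.Agent.X32.CL
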