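import Pool.Agent.X32.CL.Prod2

/-!
The upper bound for the primes of the critical type (adapted from `Pool.Agent.Y843.CH.Fin1` of helper843 and
`Pool.Agent.Y840.CI.Fin1` of helper840).
-/

set_option autoImplicit false

namespace Pool.Agent.X32.CL

open Finset Filter Pool.Agent.W23.DC Pool.Agent.Y660.RP
open Pool.Agent.Y843.HS (Pr VV Pr_mem Pr_prime VV_split)
open Pool.Agent.Y843.HG (Adm Z0 SP V1 V1_bounds log_floor)
open Pool.Agent.Y843.QD (vZ dvd_vZ)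
open Pool.Agent.Y843.CH
open Pool.Agent.Y840.CI (MB')

variable {r N X z Y m a u A B J U : ℕ} {ε δ θ A0 η : ℝ} {w H : ℤ} {Om : ℕ → Finset ℕ}

theorem St2.m2_pos (S : St2 r N X z Y m a u A B ε w H Om) : 0 < m2 m u w := by
  unfold m2
  exact Nat.mul_pos (Int.natAbs_pos.2 S.w0) (Nat.div_pos (Nat.le_of_dvd S.m0 S.u1) S.u0)

theorem St2.m2z (S : St2 r N X z Y m a u A B ε w H Om) : ∀ q : ℕ, q.Prime → q ∣ m2 m u w → q ≤ z := by
  intro q hq hd
  unfold m2 at hd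
  rcases (hq.dvd_mul).1 hd with h | h
  · by_contra hcon
    apply S.D.cw q hq (by omega)
    exact Int.natCast_dvd.2 h
  · exact S.mz q hq (h.trans (Nat.div_dvd_of_dvd S.u1))

theorem St2.cop_nc (S : St2 r N X z Y m a u A B ε w H Om) {s : ℤ} (hs : s = 1 ∨ s = -1) :
    (nc m a u w H s).Coprime (m2 m u w) := by
  have hm2 := S.m2_pos
  apply Nat.Coprime.symm
  rw [Nat.coprime_iff_gcd_eq_one]
  by_contra hcon
  obtain ⟨q, hq, hqd⟩ := Nat.exists_prime_and_dvd hcon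
  have h1 : q ∣ m2 m u w := hqd.trans (Nat.gcd_dvd_left _ _)
  have h2 : q ∣ nc m a u w H s := hqd.trans (Nat.gcd_dvd_right _ _)
  obtain ⟨k, hk⟩ := S.ua
  have hu0 : (0 : ℤ) < u := by exact_mod_cast S.u0
  have hk1 : (w * (a : ℤ) + H) / u = k := by rw [hk, Int.mul_ediv_cancel_left _ hu0.ne']
  have h3 : (q : ℤ) ∣ s * k := by
    have h4 : (q : ℤ) ∣ ((nc m a u w H s : ℕ) : ℤ) := Int.natCast_dvd_natCast.2 h2
    unfold nc at h4
    rw [hr_cast _ hm2, hk1] at h4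
    have h5 : ((m2 m u w : ℕ) : ℤ) ∣ s * k - (s * k) % (m2 m u w : ℕ) := Int.dvd_self_sub_emod
    have h6 := (Int.natCast_dvd_natCast.2 h1).trans h5
    have h7 := dvd_add h6 h4
    rwa [sub_add_cancel] at h7
  have h4 : (q : ℤ) ∣ k := by
    rcases hs with rfl | rfl
    · simpa using h3
    · rw [neg_one_mul, dvd_neg] at h3
      exact h3
  have hqz : q ∈ Pr 0 z := Pr_mem.2 ⟨⟨hq.pos, S.m2z q hq h1⟩, hq⟩
  apply S.aq q hqz
  rw [hk]
  push_cast
  exact mul_dvd_mul_left _ h4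

theorem St2.tR_le (S : St2 r N X z Y m a u A B ε w H Om) : |tR u w H A| ≤ X ∧ |tR u w H B| ≤ X := by
  have hu : (0 : ℝ) < u := by exact_mod_cast S.u0
  have hA := S.tA
  have hB := S.tB
  unfold tR
  rw [abs_div, abs_div, Nat.abs_cast, div_le_iff₀ hu, div_le_iff₀ hu, mul_comm (X : ℝ)]
  exact ⟨by exact_mod_cast hA, by exact_mod_cast hB⟩

theorem St2.aJ_le (S : St2 r N X z Y m a u A B ε w H Om) {s : ℤ} (hs : s = 1 ∨ s = -1) :
    0 ≤ aJ A B u w H s ∧ aJ A B u w H s ≤ bJ A B u w H s ∧ bJ A B u w H s ≤ 2 * X := by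
  obtain ⟨h1, h2⟩ := S.tR_le
  have hX : (0 : ℝ) ≤ X := Nat.cast_nonneg _
  rw [_root_.abs_le] at h1 h2
  unfold aJ bJ
  refine ⟨le_max_right _ _, ?_, ?_⟩
  · apply max_le
    · refine le_trans ?_ (le_max_left _ _)
      have := (min_le_left ((s : ℝ) * tR u w H A) (s * tR u w H B)).trans
        (le_max_left ((s : ℝ) * tR u w H A) (s * tR u w H B))
      linarith
    · exact le_max_right _ _
  · apply max_le
    · rcases hs with rfl | rfl
      · push_cast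
        apply max_le <;> linarith
      · push_cast
        apply max_le <;> linarith
    · linarith

theorem abJ_sum (S : St2 r N X z Y m a u A B ε w H Om) :
    (bJ A B u w H 1 - aJ A B u w H 1) + (bJ A B u w H (-1) - aJ A B u w H (-1)) ≤
      w.natAbs / u * ((B : ℝ) - A) + 1 := by
  have hu : (0 : ℝ) < u := by exact_mod_cast S.u0
  have hAB : (A : ℝ) ≤ B := by exact_mod_cast S.AB
  obtain ⟨L, hL⟩ : ∃ L : ℝ, L = min (tR u w H A) (tR u w H B) := ⟨_, rfl⟩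
  obtain ⟨R, hR⟩ : ∃ R : ℝ, R = max (tR u w H A) (tR u w H B) := ⟨_, rfl⟩
  have hlen : R - L = w.natAbs / u * ((B : ℝ) - A) := by
    rw [hR, hL, max_sub_min_eq_abs]
    unfold tR
    have e : ((w : ℝ) * B + H) / u - (w * A + H) / u = w / u * (B - A) := by ring
    rw [e, abs_mul, abs_div, Nat.abs_cast, abs_of_nonneg (by linarith : (0 : ℝ) ≤ (B : ℝ) - A)]
    congr 2
    rw [← Int.cast_abs, Int.abs_eq_natAbs]
    simp
  have e1 : aJ A B u w H 1 = max (L - 1) 0 ∧ bJ A B u w H 1 = max R 0 := by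
    unfold aJ bJ
    rw [hL, hR]
    push_cast
    rw [one_mul, one_mul]
    exact ⟨rfl, rfl⟩
  have e2 : aJ A B u w H (-1) = max (-R - 1) 0 ∧ bJ A B u w H (-1) = max (-L) 0 := by
    unfold aJ bJ
    rw [hL, hR]
    push_cast
    rw [neg_one_mul, neg_one_mul, min_neg_neg, max_neg_neg]
    exact ⟨rfl, rfl⟩
  rw [e1.1, e1.2, e2.1, e2.2, ← hlen]
  have hLR : L ≤ R := by rw [hL, hR]; exact min_le_max
  rcases le_total 1 L with h1 | h1
  · rw [max_eq_left (by linarith : (0 : ℝ) ≤ L - 1), max_eq_left (by linarith : (0 : ℝ) ≤ R),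
      max_eq_right (by linarith : -R - 1 ≤ 0), max_eq_right (by linarith : -L ≤ 0)]
    linarith
  · rw [max_eq_right (by linarith : L - 1 ≤ 0)]
    rcases le_total 0 L with h2 | h2
    · rw [max_eq_left (by linarith : (0 : ℝ) ≤ R),
        max_eq_right (by linarith : -R - 1 ≤ 0), max_eq_right (by linarith : -L ≤ 0)]
      linarith
    · rw [max_eq_left (by linarith : (0 : ℝ) ≤ -L)]
      rcases le_total 0 R with h3 | h3
      · rw [max_eq_left h3, max_eq_right (by linarith : -R - 1 ≤ 0)]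
        linarith
      · rw [max_eq_right h3]
        have := le_max_left (-R - 1) 0
        linarith

/-- the mass of the block `(s, j)` -/
noncomputable def ms2 (A B N X J u : ℕ) (δ : ℝ) (w H s : ℤ) (j : ℕ) : ℝ :=
  (((Ioc (lo N (uj J j)) (lo N (uj J (j + 1)))).filter Nat.Prime).card : ℝ) *
    ((NN N (aJ A B u w H s / (N : ℝ) ^ uj J (j + 1)) ((bJ A B u w H s + δ * X) / (N : ℝ) ^ uj J j)).card : ℝ)

theorem mass2a (S : St2 r N X z Y m a u A B ε w H Om) (hδ0 : 0 < δ) (hδ : δ ≤ 1 / 4000)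
    (hN4 : 4000 ≤ N) (hMB : MB' N δ) (hJ : 1 ≤ J)
    (hlam : (N : ℝ) ^ (417 / 1000 / (J : ℝ)) ≤ 1 + δ) {s : ℤ} (hs : s = 1 ∨ s = -1) :
    ∑ j ∈ range J, ms2 A B N X J u δ w H s j ≤
      (195 / 1000 * ((bJ A B u w H s - aJ A B u w H s) + 6 * (δ * X)) + δ * X) / Real.log N := by
  have hN2 : 2 ≤ N := by omega
  have hNr : (4000 : ℝ) ≤ N := by exact_mod_cast hN4
  have hNX : (N : ℝ) ^ 2 ≤ X := by exact_mod_cast S.NX
  have hXN : (X : ℝ) < ((N : ℝ) + 1) ^ 2 := by exact_mod_cast S.XN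
  have hL : 0 < Real.log N := Real.log_pos (by linarith)
  set lam := (N : ℝ) ^ (417 / 1000 / (J : ℝ)) with hlamd
  have hlam1 : 1 ≤ lam := Real.one_le_rpow (by linarith) (by positivity)
  have hlam0 : 0 < lam := by linarith
  obtain ⟨h1, h2, h4⟩ := S.aJ_le hs
  obtain ⟨α, hα⟩ : ∃ α : ℝ, α = aJ A B u w H s := ⟨_, rfl⟩
  obtain ⟨β, hβ⟩ : ∃ β : ℝ, β = bJ A B u w H s := ⟨_, rfl⟩
  rw [← hα, ← hβ] at h2
  rw [← hα] at h1
  rw [← hβ] at h4
  have hX0 : (0 : ℝ) ≤ X := Nat.cast_nonneg _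
  have hX0' : (0 : ℝ) < X := by nlinarith
  have hX2 : (X : ℝ) ≤ 11 / 10 * (N : ℝ) ^ 2 := by nlinarith
  have hb0' : 0 ≤ β := by linarith
  obtain ⟨D, hD⟩ : ∃ D : ℝ, D = δ * X := ⟨_, rfl⟩
  have hD0 : 0 ≤ D := by rw [hD]; positivity
  have hDX : D ≤ 1 / 4000 * X := by rw [hD]; gcongr
  have hDN : δ * (N : ℝ) ^ 2 ≤ D := by rw [hD]; gcongr
  have hb0 : 0 ≤ β + D := by linarith
  have e1 : ∑ j ∈ range J, ms2 A B N X J u δ w H s j =
      ∑ j ∈ range J, ((pr N (uj J j) (uj J (j + 1))).card : ℝ) *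
      ((NN N (α / (N : ℝ) ^ uj J (j + 1)) ((β + D) / (N : ℝ) ^ uj J j)).card : ℝ) := by
    apply Finset.sum_congr rfl
    intro j hj
    unfold ms2
    rw [block_eq hN2 (uj_le_one hJ (mem_range.1 hj)), hD, hα, hβ]
  rw [e1, ← hα, ← hβ, ← hD]
  refine (mass_blocks hN2 hJ α (β + D) h1).trans ?_
  rw [← hlamd]
  have ha : α / lam ≤ α := div_le_self h1 hlam1
  have haX : α ≤ 2 * X := by linarith
  have hδa : δ * α ≤ 2 * D := by
    calc δ * α ≤ δ * (2 * X) := by gcongr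
      _ = 2 * D := by rw [hD]; ring
  have hδb : δ * (β + D) ≤ 3 * D := by
    calc δ * (β + D) ≤ δ * (3 * X) := by gcongr; linarith
      _ = 3 * D := by rw [hD]; ring
  have hinv : α - δ * α ≤ α / lam := by
    rw [le_div_iff₀ hlam0]
    have h5 : α * (1 - δ) * lam ≤ α * (1 - δ) * (1 + δ) := by
      apply mul_le_mul_of_nonneg_left hlam
      apply mul_nonneg h1
      linarith
    have h6 : α * (1 - δ) * (1 + δ) ≤ α := by
      have : α * (1 - δ) * (1 + δ) = α - α * δ ^ 2 := by ring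
      rw [this]
      have : 0 ≤ α * δ ^ 2 := by positivity
      linarith
    calc (α - δ * α) * lam = α * (1 - δ) * lam := by ring
      _ ≤ _ := h5.trans h6
  have hbl : β + D ≤ (β + D) * lam := le_mul_of_one_le_right hb0 hlam1
  have hbu : (β + D) * lam ≤ (β + D) * (1 + δ) := mul_le_mul_of_nonneg_left hlam hb0
  have hbu2 : (β + D) * lam ≤ β + D + 3 * D := by
    calc (β + D) * lam ≤ (β + D) * (1 + δ) := hbu
      _ = (β + D) + δ * (β + D) := by ring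
      _ ≤ _ := by linarith
  refine (hMB (α / lam) ((β + D) * lam) (by positivity) (by linarith)
    (by linarith) (by linarith)).trans ?_
  apply div_le_div_of_nonneg_right _ hL.le
  linarith

theorem mass2b (S : St2 r N X z Y m a u A B ε w H Om) (hθ0 : 0 < θ) (hδ0 : 0 < δ)
    (hδ : δ ≤ 1 / 4000) (hδθ : δ * u * 8000 ≤ θ) (hθ : θ * X ≤ (B : ℝ) - A) (hθX : 4000 * u ≤ θ * X)
    (hN4 : 4000 ≤ N) (hMB : MB' N δ) (hJ : 1 ≤ J)
    (hlam : (N : ℝ) ^ (417 / 1000 / (J : ℝ)) ≤ 1 + δ) :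
    ∑ j ∈ range J, ms2 A B N X J u δ w H 1 j + ∑ j ∈ range J, ms2 A B N X J u δ w H (-1) j ≤
      196 / 1000 * (w.natAbs / u * (((B : ℝ) - A) / Real.log N)) := by
  have h1 := mass2a S hδ0 hδ hN4 hMB hJ hlam (Or.inl rfl)
  have h2 := mass2a S hδ0 hδ hN4 hMB hJ hlam (Or.inr rfl)
  have h3 := abJ_sum S
  have hu : (0 : ℝ) < u := by exact_mod_cast S.u0
  have hL : 0 < Real.log N := Real.log_pos (by
    have : (4000 : ℝ) ≤ N := by exact_mod_cast hN4
    linarith)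
  have hX0 : (0 : ℝ) ≤ X := Nat.cast_nonneg _
  have hw1 : (1 : ℝ) ≤ w.natAbs := by
    exact_mod_cast Int.natAbs_pos.2 S.w0
  obtain ⟨G, hG⟩ : ∃ G : ℝ, G = w.natAbs / u * ((B : ℝ) - A) := ⟨_, rfl⟩
  have hGb : θ * X / u ≤ G := by
    rw [hG, div_mul_eq_mul_div]
    apply div_le_div_of_nonneg_right _ hu.le
    have h4 : 0 ≤ (B : ℝ) - A := le_trans (by positivity) hθ
    nlinarith
  have hD : δ * X ≤ G / 8000 := by
    have h5 : δ * X ≤ θ * X / u / 8000 := by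
      rw [div_div, le_div_iff₀ (by positivity)]
      have := mul_le_mul_of_nonneg_right hδθ hX0
      linarith
    linarith
  have hG1 : 4000 ≤ G := by
    refine le_trans ?_ hGb
    rw [le_div_iff₀ hu]
    exact hθX
  rw [← hG] at h3
  have h4 : (195 / 1000 * ((bJ A B u w H 1 - aJ A B u w H 1) + 6 * (δ * X)) + δ * X) / Real.log N +
      (195 / 1000 * ((bJ A B u w H (-1) - aJ A B u w H (-1)) + 6 * (δ * X)) + δ * X) / Real.log N ≤
      196 / 1000 * (G / Real.log N) := by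
    rw [← add_div, mul_div_assoc']
    apply div_le_div_of_nonneg_right _ hL.le
    linarith
  have h5 : (w.natAbs : ℝ) / u * (((B : ℝ) - A) / Real.log N) = G / Real.log N := by
    rw [hG]
    ring
  rw [h5]
  linarith

open Classical in
theorem block2 (S : St2 r N X z Y m a u A B ε w H Om) (hδ0 : 0 < δ) (hδ : δ ≤ 1 / 4000)
    (hN4 : 4000 ≤ N) (hSz : Sz N X)
    (hCB : CB (r + 1) z N ε A0 η) (hTE : TE (m2 m u w) (r + 1) U N X) (hJ : 1 ≤ J)
    (hlam : (N : ℝ) ^ (417 / 1000 / (J : ℝ)) ≤ 1 + δ) {s : ℤ} (hs : s = 1 ∨ s = -1)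
    {j : ℕ} (hj : j < J) :
    ((FT2 A B N X J z Y m a u ε δ w H Om s j).card : ℝ) ≤
      ε * (ms2 A B N X J u δ w H s j / (Nat.totient (m2 m u w) : ℝ) *
        ∏ p ∈ P1 N z ε, (1 - gC (ZA2 w H Y Om) p)) *
        (1000 / 998 * A0 + η) + Real.log N * (X / Real.log X ^ U) := by
  have hN2 : 2 ≤ N := by omega
  have hNr : (4000 : ℝ) ≤ N := by exact_mod_cast hN4
  have hNX : (N : ℝ) ^ 2 ≤ X := by exact_mod_cast S.NX
  have hXN : (X : ℝ) < ((N : ℝ) + 1) ^ 2 := by exact_mod_cast S.XN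
  have hN0 : (0 : ℝ) < N := by linarith
  have hL : 0 < Real.log N := Real.log_pos (by linarith)
  have hX0 : (0 : ℝ) ≤ X := Nat.cast_nonneg _
  set lam := (N : ℝ) ^ (417 / 1000 / (J : ℝ)) with hlamd
  have hpj : 0 < (N : ℝ) ^ uj J j := Real.rpow_pos_of_pos hN0 _
  have he : (N : ℝ) ^ uj J (j + 1) = (N : ℝ) ^ uj J j * lam := by
    rw [uj_succ, Real.rpow_add hN0]
  obtain ⟨h1, h2, h4⟩ := S.aJ_le hs
  have hDX : δ * X ≤ 1 / 4000 * X := by gcongr
  have hD0 : 0 ≤ δ * X := by positivity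
  have hb0 : 0 ≤ bJ A B u w H s + δ * X := by linarith
  -- the sizes
  have hnotdvd : ∀ p ∈ Pr z N, ¬ p ∣ m2 m u w := by
    intro p hp hd
    have := S.m2z p (Pr_prime hp) hd
    have := (Pr_mem.1 hp).1.1
    omega
  have hlo : ∀ u : ℝ, (lo N u : ℝ) < (N : ℝ) ^ u := by
    intro u
    have h5 : ¬ lo N u < lo N u := lt_irrefl _
    rw [lo_lt_iff (by omega), not_le] at h5
    exact h5
  have hlo2 : ∀ u : ℝ, (N : ℝ) ^ u ≤ (lo N u : ℝ) + 1 := by
    intro u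
    have h5 := (lo_lt_iff (by omega : 1 ≤ N) u (lo N u + 1)).1 (Nat.lt_succ_self _)
    push_cast at h5
    exact h5
  have hM0 : (X : ℝ) ^ (1 / 9 : ℝ) ≤ lo N (uj J j) := by
    have h5 := hlo2 (uj J j)
    have h6 : (N : ℝ) ^ (1 / 4 : ℝ) ≤ (N : ℝ) ^ uj J j := by
      apply Real.rpow_le_rpow_of_exponent_le (by linarith)
      rw [← uj_zero J]
      exact uj_mono (Nat.zero_le _)
    linarith [hSz.a]
  have hM01 : lo N (uj J j) ≤ lo N (uj J (j + 1)) := by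
    have h5 : (N : ℝ) ^ uj J j ≤ (N : ℝ) ^ uj J (j + 1) :=
      Real.rpow_le_rpow_of_exponent_le (by linarith) (uj_mono (Nat.le_succ _))
    by_contra hcon
    rw [not_le, lo_lt_iff (by omega)] at hcon
    have h6 := hlo (uj J j)
    linarith
  have hM1 : (lo N (uj J (j + 1)) : ℝ) ≤ (X : ℝ) ^ (2 / 5 : ℝ) := by
    refine (hlo _).le.trans (le_trans ?_ hSz.b)
    apply Real.rpow_le_rpow_of_exponent_le (by linarith)
    rw [← uj_last hJ]
    exact uj_mono (by omega)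
  have hMY : lo N (uj J (j + 1)) * ⌊(bJ A B u w H s + δ * X) / (N : ℝ) ^ uj J j⌋₊ ≤ 5 * X := by
    have h5 : ((lo N (uj J (j + 1)) * ⌊(bJ A B u w H s + δ * X) / (N : ℝ) ^ uj J j⌋₊ : ℕ) : ℝ) ≤ 5 * X := by
      push_cast
      calc (lo N (uj J (j + 1)) : ℝ) * (⌊(bJ A B u w H s + δ * X) / (N : ℝ) ^ uj J j⌋₊ : ℝ) ≤
            ((N : ℝ) ^ uj J j * lam) * ((bJ A B u w H s + δ * X) / (N : ℝ) ^ uj J j) := by
            rw [← he]
            exact mul_le_mul (hlo _).le (Nat.floor_le (by positivity)) (by positivity) (by positivity)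
        _ = lam * (bJ A B u w H s + δ * X) := by
            field_simp
        _ ≤ (1 + δ) * (bJ A B u w H s + δ * X) := mul_le_mul_of_nonneg_right hlam hb0
        _ ≤ 2 * (bJ A B u w H s + δ * X) := mul_le_mul_of_nonneg_right (by linarith) hb0
        _ ≤ 5 * X := by linarith
    exact_mod_cast h5
  have hTT : ∀ n ∈ NN N (aJ A B u w H s / (N : ℝ) ^ uj J (j + 1)) ((bJ A B u w H s + δ * X) / (N : ℝ) ^ uj J j),
      1 ≤ n ∧ n ≤ ⌊(bJ A B u w H s + δ * X) / (N : ℝ) ^ uj J j⌋₊ ∧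
      ∀ p ∈ n.primeFactors, (X : ℝ) ^ (1 / 9 : ℝ) ≤ (p : ℝ) := by
    intro n hn
    obtain ⟨g1, g2, g3⟩ := NN_mem hn
    refine ⟨g1, g2, fun p hp => ?_⟩
    have h5 := g3 p hp
    have h6 : (N : ℝ) ^ (1 / 4 : ℝ) ≤ (N : ℝ) ^ (667 / 1000 : ℝ) :=
      Real.rpow_le_rpow_of_exponent_le (by linarith) (by norm_num)
    linarith [hSz.a]
  have hter := hTE z (nc m a u w H s) (ZT2 u w H s Y Om) (S.D.clT hs N) (S.cop_nc hs)
    hnotdvd _ _ _ hM0 hM01 hM1 hMY _ hTT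
  have hh0 : H.natAbs ≠ 0 := Int.natAbs_ne_zero.2 S.H0
  have hms0 : 0 ≤ ms2 A B N X J u δ w H s j := by
    unfold ms2
    positivity
  have hcb := (hCB (ℕ × ℕ) ((TB2 A B N X J u δ w H s j).filter
    (fun x => x.1 * x.2 ≡ nc m a u w H s [MOD m2 m u w])) (fun x => vZ (ZT2 u w H s Y Om) z N (x.1 * x.2))
    (gC (ZT2 u w H s Y Om)) (ms2 A B N X J u δ w H s j / (Nat.totient (m2 m u w) : ℝ)) H.natAbs
    (by positivity) hh0 S.HN (by
      have h5 := S.D.dgT S.zY hs S.Yw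
      push_cast at h5 ⊢
      exact h5)).2
  have hprod : ∏ p ∈ P1 N z ε, (1 - gC (ZT2 u w H s Y Om) p) = ∏ p ∈ P1 N z ε, (1 - gC (ZA2 w H Y Om) p) := by
    apply Finset.prod_congr rfl
    intro p hp
    rw [S.D.gT hs (mem_P1.1 hp).2.1 (mem_P1.1 hp).1.1]
  rw [hprod] at hcb
  refine le_trans (le_of_eq ?_) (hcb.trans ?_)
  · unfold FT2
    congr!
  have h9 : Real.log N * ∑ q ∈ Lv' z ((N : ℝ) ^ (999 / 1000 : ℝ)),
      Rr ((TB2 A B N X J u δ w H s j).filter (fun x => x.1 * x.2 ≡ nc m a u w H s [MOD m2 m u w]))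
      (fun x => vZ (ZT2 u w H s Y Om) z N (x.1 * x.2)) (gC (ZT2 u w H s Y Om))
      (ms2 A B N X J u δ w H s j / (Nat.totient (m2 m u w) : ℝ)) q ≤ Real.log N * (X / Real.log X ^ U) := by
    apply mul_le_mul_of_nonneg_left _ hL.le
    exact hter
  linarith

end Pool.Agent.X32.CL
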