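import Pool.Agent.X32.CL.Enc2

/-!
Chen's weights for two linear forms: from the weighted sum to the number of the good primes (adapted from
`Pool.Agent.Y843.CH.Pos` of helper843).
-/

set_option autoImplicit false

namespace Pool.Agent.X32.CL

open Finset Filter Pool.Agent.W23.DC Pool.Agent.Y660.RP
open Pool.Agent.Y843.HS (Pr Pr_mem Pr_prime)
open Pool.Agent.Y843.QD (vZ dvd_vZ)
open Pool.Agent.Y843.HG (Adm Z0)
open Pool.Agent.Y843.CH

/-- the absolute value of the second form -/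
def fv (u : ℕ) (w H : ℤ) (p : ℕ) : ℕ := ((w * p + H) / u).natAbs

/-- the setting -/
structure St2 (r N X z Y m a u A B : ℕ) (ε : ℝ) (w H : ℤ) (Om : ℕ → Finset ℕ) : Prop where
  D : Dt r z Y u w H Om
  N8 : 8 ≤ N
  N4 : (2 : ℝ) < (N : ℝ) ^ (1 / 4 : ℝ)
  NX : N ^ 2 ≤ X
  XN : X < (N + 1) ^ 2
  NA : N ≤ A
  AB : A ≤ B
  BX : B ≤ X
  tA : |w * A + H| ≤ u * X
  tB : |w * B + H| ≤ u * X
  H0 : H ≠ 0
  HN : H.natAbs ≤ N ^ 3
  zY : z ≤ Y
  Yw : (Y : ℝ) < (N : ℝ) ^ ε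
  e0 : 0 < ε
  e1 : ε ≤ 1 / 8
  u0 : 0 < u
  w0 : w ≠ 0
  m0 : 0 < m
  mz : ∀ q : ℕ, q.Prime → q ∣ m → q ≤ z
  um : ∀ q ∈ Pr 0 z, u * q ∣ m
  u1 : u ∣ m
  cop : a.Coprime m
  ua : (u : ℤ) ∣ w * a + H
  aq : ∀ q ∈ Pr 0 z, ¬ ((u * q : ℕ) : ℤ) ∣ w * a + H


open Classical in
/-- the primes of the sieve -/
noncomputable def OO (A B N z Y m a : ℕ) (ε : ℝ) (w H : ℤ) (Om : ℕ → Finset ℕ) : Finset ℕ :=
  ((PNX A B).filter (fun p => p ≡ a [MOD m])).filter (fun p => ∀ q ∈ P1 N z ε, ¬ q ∣ vZ (ZA2 w H Y Om) z N p)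

open Classical in
/-- the good primes -/
noncomputable def GD2 (A B N z Y m a u : ℕ) (w H : ℤ) (Om : ℕ → Finset ℕ) : Finset ℕ :=
  (PNX A B).filter (fun p => p ≡ a [MOD m] ∧ (∀ q ∈ Pr z Y, p % q ∉ Z0 Om q) ∧ fv u w H p ≠ 0 ∧
    (fv u w H p).primeFactorsList.length ≤ 2 ∧
    ∀ q : ℕ, q.Prime → q ∣ fv u w H p → (N : ℝ) ^ (1 / 4 : ℝ) ≤ q)

open Classical in
/-- the bad primes -/
noncomputable def BD2 (A B N z m a u : ℕ) (w H : ℤ) : Finset ℕ :=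
  (PNX A B).filter (fun p => p ≡ a [MOD m] ∧
    ∃ q : ℕ, q.Prime ∧ z < q ∧ q ∈ Ioc (lo N (1 / 4)) N ∧ q ^ 2 ∣ fv u w H p)

open Classical in
/-- the primes of the critical type -/
noncomputable def TY2 (A B N z Y m a u : ℕ) (w H : ℤ) (Om : ℕ → Finset ℕ) : Finset ℕ :=
  (PNX A B).filter (fun p => p ≡ a [MOD m] ∧ (∀ q ∈ Pr z Y, p % q ∉ Z0 Om q) ∧ Ty N (fv u w H p))

theorem mem_PNX {A B p : ℕ} : p ∈ PNX A B ↔ (A < p ∧ p ≤ B) ∧ p.Prime := by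
  unfold PNX
  rw [mem_filter, mem_Ioc]

variable {r N X z Y m a u A B : ℕ} {ε : ℝ} {w H : ℤ} {Om : ℕ → Finset ℕ}

theorem St2.udvd (S : St2 r N X z Y m a u A B ε w H Om) {p : ℕ} (hp : p ≡ a [MOD m]) :
    (u : ℤ) ∣ w * p + H := by
  have h1 : (m : ℤ) ∣ (a : ℤ) - p := (Nat.modEq_iff_dvd).1 hp
  have h2 : (u : ℤ) ∣ (a : ℤ) - p := (Int.natCast_dvd_natCast.2 S.u1).trans h1
  have h3 := dvd_sub S.ua (h2.mul_left w)
  have h4 : w * a + H - w * ((a : ℤ) - p) = w * p + H := by ring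
  rwa [h4] at h3

theorem St2.fv_eq (S : St2 r N X z Y m a u A B ε w H Om) {p : ℕ} (hp : p ≡ a [MOD m]) :
    ∃ k : ℤ, w * p + H = u * k ∧ fv u w H p = k.natAbs := by
  obtain ⟨k, hk⟩ := S.udvd hp
  refine ⟨k, hk, ?_⟩
  unfold fv
  rw [hk, Int.mul_ediv_cancel_left _ (by exact_mod_cast S.u0.ne')]

/-- divisibility of the second form -/
theorem St2.dvd_fv (S : St2 r N X z Y m a u A B ε w H Om) {p : ℕ} (hp : p ≡ a [MOD m]) {q : ℕ}
    (hq : q.Prime) (hz : z < q) : q ∣ fv u w H p ↔ p % q = Cc w H q := by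
  obtain ⟨k, hk, hf⟩ := S.fv_eq hp
  rw [Cc_iff w H hq.pos (cop_of hq (S.D.cw q hq hz)), hf, ← Int.natCast_dvd, hk]
  constructor
  · intro h
    exact h.mul_left _
  · intro h
    rcases (Nat.prime_iff_prime_int.1 hq).dvd_or_dvd h with h1 | h1
    · exact absurd (Int.natCast_dvd_natCast.1 h1) (S.D.cu q hq hz)
    · exact h1

/-- no small prime divides the second form -/
theorem St2.not_dvd_fv (S : St2 r N X z Y m a u A B ε w H Om) {p : ℕ} (hp : p ≡ a [MOD m]) {q : ℕ}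
    (hq : q.Prime) (hz : q ≤ z) : ¬ q ∣ fv u w H p := by
  intro hd
  obtain ⟨k, hk, hf⟩ := S.fv_eq hp
  have hq0 : q ∈ Pr 0 z := Pr_mem.2 ⟨⟨hq.pos, hz⟩, hq⟩
  apply S.aq q hq0
  have h1 : (m : ℤ) ∣ (a : ℤ) - p := (Nat.modEq_iff_dvd).1 hp
  have h2 : ((u * q : ℕ) : ℤ) ∣ (a : ℤ) - p := (Int.natCast_dvd_natCast.2 (S.um q hq0)).trans h1
  have h3 : ((u * q : ℕ) : ℤ) ∣ w * p + H := by
    rw [hk]
    push_cast
    apply mul_dvd_mul_left
    rw [hf, ← Int.natCast_dvd] at hd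
    exact hd
  have h4 := dvd_add h3 (h2.mul_left w)
  have h5 : w * p + H + w * ((a : ℤ) - p) = w * a + H := by ring
  rwa [h5] at h4

/-- the size of the second form -/
theorem St2.abs_le (S : St2 r N X z Y m a u A B ε w H Om) {p : ℕ} (h1 : A < p) (h2 : p ≤ B) :
    |w * p + H| ≤ u * X := by
  have hA := S.tA
  have hB := S.tB
  rw [_root_.abs_le] at hA hB ⊢
  have h1' : (A : ℤ) ≤ p := by exact_mod_cast h1.le
  have h2' : (p : ℤ) ≤ B := by exact_mod_cast h2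
  rcases le_total 0 w with hw | hw
  · have e1 := mul_le_mul_of_nonneg_left h1' hw
    have e2 := mul_le_mul_of_nonneg_left h2' hw
    constructor <;> linarith
  · have e1 := mul_le_mul_of_nonpos_left h1' hw
    have e2 := mul_le_mul_of_nonpos_left h2' hw
    constructor <;> linarith

theorem St2.fv_le (S : St2 r N X z Y m a u A B ε w H Om) {p : ℕ} (hp : p ≡ a [MOD m])
    (h1 : A < p) (h2 : p ≤ B) : fv u w H p ≤ X := by
  obtain ⟨k, hk, hf⟩ := S.fv_eq hp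
  have h3 := S.abs_le h1 h2
  rw [hk, abs_mul, Nat.abs_cast] at h3
  have hu : (0 : ℤ) < u := by exact_mod_cast S.u0
  have h4 := le_of_mul_le_mul_left h3 hu
  rw [hf]
  rw [Int.abs_eq_natAbs] at h4
  exact_mod_cast h4

theorem BD_card2 (S : St2 r N X z Y m a u A B ε w H Om) (hN : 2 ≤ lo N (1 / 4)) (hN2 : lo N (1 / 4) ≤ N) :
    ((BD2 A B N z m a u w H).card : ℝ) ≤ X / lo N (1 / 4) + N := by
  classical
  set k := lo N (1 / 4) with hk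
  have hsub : BD2 A B N z m a u w H ⊆
      (Ioc k N).biUnion (fun q => (Ioc 0 (0 + X)).filter (fun p => p ≡ Cc w H (q ^ 2) [MOD (q ^ 2)])) := by
    intro p hp
    unfold BD2 at hp
    rw [mem_filter, mem_PNX] at hp
    obtain ⟨⟨⟨h1, h2⟩, h3⟩, h4, q, hqp, hzq, hq, hd⟩ := hp
    rw [mem_biUnion]
    refine ⟨q, hq, ?_⟩
    rw [mem_filter, mem_Ioc]
    have hBX := S.BX
    refine ⟨⟨h3.pos, by omega⟩, ?_⟩
    obtain ⟨l, hl, hf⟩ := S.fv_eq h4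
    have h5 : ((q ^ 2 : ℕ) : ℤ) ∣ w * p + H := by
      rw [hl]
      rw [hf, ← Int.natCast_dvd] at hd
      exact hd.mul_left _
    have hc : IsCoprime ((q ^ 2 : ℕ) : ℤ) w := by
      push_cast
      exact (cop_of hqp (S.D.cw q hqp hzq)).pow_left
    have h6 := (Cc_iff w H (pow_pos hqp.pos 2) hc p).2 h5
    unfold Nat.ModEq
    rw [h6, Nat.mod_eq_of_lt (Cc_lt w H (pow_pos hqp.pos 2))]
  have h1 : ((BD2 A B N z m a u w H).card : ℝ) ≤ ∑ q ∈ Ioc k N,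
      ((((Ioc 0 (0 + X)).filter (fun p => p ≡ Cc w H (q ^ 2) [MOD (q ^ 2)])).card : ℕ) : ℝ) := by
    have := (card_le_card hsub).trans card_biUnion_le
    exact_mod_cast this
  refine h1.trans ?_
  have h2 : ∀ q ∈ Ioc k N, ((((Ioc 0 (0 + X)).filter (fun p => p ≡ Cc w H (q ^ 2) [MOD (q ^ 2)])).card : ℕ) : ℝ) ≤
      X * ((q : ℝ) ^ 2)⁻¹ + 1 := by
    intro q hq
    rw [mem_Ioc] at hq
    have hq0 : 0 < q ^ 2 := by
      have : 0 < q := by omega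
      positivity
    have h3 := Pool.Agent.Y843.QD.card_class 0 X (q ^ 2) (Cc w H (q ^ 2)) hq0
    have h4 := (_root_.abs_le.1 h3).2
    push_cast at h4
    rw [div_eq_mul_inv] at h4
    linarith
  refine (sum_le_sum h2).trans ?_
  rw [sum_add_distrib, ← mul_sum, sum_const, Nat.card_Ioc, nsmul_eq_mul, mul_one]
  have h3 := sum_Ioc_inv_sq_le_sub (α := ℝ) (k := k) (n := N) (by omega) hN2
  have h4 : (0 : ℝ) ≤ (N : ℝ)⁻¹ := by positivity
  have h5 : (X : ℝ) * ∑ i ∈ Ioc k N, ((i : ℝ) ^ 2)⁻¹ ≤ X * (k : ℝ)⁻¹ := by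
    apply mul_le_mul_of_nonneg_left _ (Nat.cast_nonneg _)
    linarith
  have h6 : ((N - k : ℕ) : ℝ) ≤ N := by exact_mod_cast Nat.sub_le _ _
  rw [div_eq_mul_inv]
  linarith

theorem St2.lt_N (S : St2 r N X z Y m a u A B ε w H Om) {t : ℝ} (ht : t ≤ 1) {q : ℕ}
    (hq : (q : ℝ) < (N : ℝ) ^ t) : q ≤ N := by
  have hN1 : (1 : ℝ) ≤ N := by exact_mod_cast (by have := S.N8; omega : 1 ≤ N)
  have h1 : (N : ℝ) ^ t ≤ N := by
    calc (N : ℝ) ^ t ≤ (N : ℝ) ^ (1 : ℝ) := Real.rpow_le_rpow_of_exponent_le hN1 ht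
      _ = N := Real.rpow_one _
  have h2 : (q : ℝ) < N := lt_of_lt_of_le hq h1
  have : q < N := by exact_mod_cast h2
  omega

theorem St2.mod_ne (S : St2 r N X z Y m a u A B ε w H Om) {p q : ℕ} (hp : p ∈ PNX A B) (hq : q.Prime)
    (hqN : q ≤ N) : p % q ≠ 0 := by
  intro h0
  rw [mem_PNX] at hp
  have h7 := (Nat.prime_dvd_prime_iff_eq hq hp.2).1 (Nat.dvd_of_mod_eq_zero h0)
  have := S.NA
  omega

theorem mem_OO {p : ℕ} : p ∈ OO A B N z Y m a ε w H Om ↔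
    (p ∈ PNX A B ∧ p ≡ a [MOD m]) ∧ ∀ q ∈ P1 N z ε, ¬ q ∣ vZ (ZA2 w H Y Om) z N p := by
  classical
  unfold OO
  rw [mem_filter, mem_filter]

theorem St2.F1 (S : St2 r N X z Y m a u A B ε w H Om) {p : ℕ} (hp : p ∈ OO A B N z Y m a ε w H Om) :
    ∀ q ∈ Pr z Y, p % q ∉ Z0 Om q := by
  classical
  intro q hq
  obtain ⟨⟨hp1, hp2⟩, hp3⟩ := mem_OO.1 hp
  have hqp := Pr_prime hq
  have h1 := (Pr_mem.1 hq).1.1
  have hqw : (q : ℝ) < (N : ℝ) ^ ε := by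
    have : (q : ℝ) ≤ Y := by exact_mod_cast (Pr_mem.1 hq).1.2
    exact lt_of_le_of_lt this S.Yw
  have hqN := S.lt_N (by have := S.e1; linarith) hqw
  have h2 := hp3 q (mem_P1.2 ⟨⟨h1, hqN⟩, hqp, hqw⟩)
  rw [dvd_vZ hqp] at h2
  have h3 : p % q ∉ ZA2 w H Y Om q := fun h3 => h2 ⟨Pr_mem.2 ⟨⟨h1, hqN⟩, hqp⟩, h3⟩
  unfold ZA2 at h3
  rw [if_pos (Pr_mem.1 hq).1.2] at h3
  unfold Z0
  rw [mem_insert, not_or]
  exact ⟨S.mod_ne hp1 hqp hqN, h3⟩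

theorem St2.F2 (S : St2 r N X z Y m a u A B ε w H Om) {p : ℕ} (hp : p ∈ OO A B N z Y m a ε w H Om)
    (hI : ∀ q ∈ pr N ε (1 / 4), ¬ q ∣ vZ (ZA2 w H Y Om) z N p) :
    ∀ q : ℕ, q.Prime → q ∣ fv u w H p → (N : ℝ) ^ (1 / 4 : ℝ) ≤ q := by
  classical
  intro q hqp hd
  by_contra hcon
  rw [not_le] at hcon
  have hN2 : 2 ≤ N := by have := S.N8; omega
  have hqN := S.lt_N (by norm_num) hcon
  have F1 := S.F1 hp
  obtain ⟨⟨hp1, hp2⟩, hp3⟩ := mem_OO.1 hp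
  rcases Nat.lt_or_ge z q with hzq | hzq
  swap
  · exact S.not_dvd_fv hp2 hqp hzq hd
  rw [S.dvd_fv hp2 hqp hzq] at hd
  rcases Nat.lt_or_ge Y q with h1 | h1
  · have hnd : ¬ q ∣ vZ (ZA2 w H Y Om) z N p := by
      rcases lt_or_ge (q : ℝ) ((N : ℝ) ^ ε) with h2 | h2
      · exact hp3 q (mem_P1.2 ⟨⟨hzq, hqN⟩, hqp, h2⟩)
      · exact hI q (mem_pr.2 ⟨⟨hqp.one_lt.le, hqN⟩, hqp, (le_tt_iff hN2 hqp _).2 h2,
          (tt_lt_iff hN2 hqp _).2 hcon⟩)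
    apply hnd
    rw [dvd_vZ hqp]
    refine ⟨Pr_mem.2 ⟨⟨hzq, hqN⟩, hqp⟩, ?_⟩
    unfold ZA2
    rw [if_neg (by omega), mem_erase, mem_singleton]
    exact ⟨S.mod_ne hp1 hqp hqN, hd⟩
  · have h2 := Pr_mem.2 ⟨⟨hzq, h1⟩, hqp⟩
    apply F1 q h2
    rw [hd]
    exact S.D.hm q h2

theorem St2.F3 (S : St2 r N X z Y m a u A B ε w H Om) {p : ℕ} (hp : p ∈ OO A B N z Y m a ε w H Om)
    {q : ℕ} (hq : q ∈ pr N (1 / 4) (667 / 1000)) :
    q ∣ vZ (ZA2 w H Y Om) z N p ↔ q ∣ fv u w H p := by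
  classical
  have hN2 : 2 ≤ N := by have := S.N8; omega
  have hN1 : (1 : ℝ) ≤ N := by exact_mod_cast (by omega : 1 ≤ N)
  obtain ⟨⟨hp1, hp2⟩, hp3⟩ := mem_OO.1 hp
  have hqp := (mem_pr.1 hq).2.1
  have hqN := (mem_pr.1 hq).1.2
  have h1 := (le_tt_iff hN2 hqp _).1 (mem_pr.1 hq).2.2.1
  have h2 : (Y : ℝ) < q := by
    calc (Y : ℝ) < (N : ℝ) ^ ε := S.Yw
      _ ≤ (N : ℝ) ^ (1 / 4 : ℝ) :=
          Real.rpow_le_rpow_of_exponent_le hN1 (by have := S.e1; linarith)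
      _ ≤ q := h1
  have h3 : Y < q := by exact_mod_cast h2
  have hzq : z < q := lt_of_le_of_lt S.zY h3
  rw [S.dvd_fv hp2 hqp hzq, dvd_vZ hqp]
  unfold ZA2
  rw [if_neg (by omega), mem_erase, mem_singleton]
  constructor
  · rintro ⟨-, -, h4⟩
    exact h4
  · intro h4
    exact ⟨Pr_mem.2 ⟨⟨hzq, hqN⟩, hqp⟩, S.mod_ne hp1 hqp hqN, h4⟩

open Classical in
theorem St2.point (S : St2 r N X z Y m a u A B ε w H Om)
    (hW : ∀ n : ℕ, 1 ≤ n → n ≤ 3 * N ^ 2 →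
      (∀ p : ℕ, p.Prime → p ∣ n → (N : ℝ) ^ (1 / 4 : ℝ) ≤ p) →
      (∀ p : ℕ, p.Prime → p ^ 2 ∣ n → (N : ℝ) ^ (667 / 1000 : ℝ) ≤ p) →
      n.primeFactorsList.length ≤ 2 ∨ 2 ≤ ((pr N (1 / 4) (667 / 1000)).filter (fun q => q ∣ n)).card ∨
      (((pr N (1 / 4) (667 / 1000)).filter (fun q => q ∣ n)).card = 1 ∧ Ty N n))
    {p : ℕ} (hp : p ∈ OO A B N z Y m a ε w H Om) :
    II N ε (vZ (ZA2 w H Y Om) z N p) *
      (1 - 1 / 2 * ∑ q ∈ pr N (1 / 4) (667 / 1000), (if q ∣ vZ (ZA2 w H Y Om) z N p then 1 else 0)) ≤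
    (if p ∈ GD2 A B N z Y m a u w H Om then (1 : ℝ) else 0) +
      1 / 2 * (if p ∈ TY2 A B N z Y m a u w H Om then (1 : ℝ) else 0) +
      (if p ∈ BD2 A B N z m a u w H then (1 : ℝ) else 0) := by
  have hN2 : 2 ≤ N := by have := S.N8; omega
  have hrhs : (0 : ℝ) ≤ (if p ∈ GD2 A B N z Y m a u w H Om then (1 : ℝ) else 0) +
      1 / 2 * (if p ∈ TY2 A B N z Y m a u w H Om then (1 : ℝ) else 0) +
      (if p ∈ BD2 A B N z m a u w H then (1 : ℝ) else 0) := by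
    split_ifs <;> norm_num
  by_cases hI : ∀ q ∈ pr N ε (1 / 4), ¬ q ∣ vZ (ZA2 w H Y Om) z N p
  swap
  · unfold II
    rw [if_neg hI, zero_mul]
    exact hrhs
  have hI1 : II N ε (vZ (ZA2 w H Y Om) z N p) = 1 := by
    unfold II
    rw [if_pos hI]
  have F1 := S.F1 hp
  have F2 := S.F2 hp hI
  obtain ⟨⟨hp1, hp2⟩, hp3⟩ := mem_OO.1 hp
  have hp1' := mem_PNX.1 hp1
  obtain ⟨n, hn⟩ : ∃ n : ℕ, n = fv u w H p := ⟨_, rfl⟩
  rw [← hn] at F2
  have hsum : ∑ q ∈ pr N (1 / 4) (667 / 1000), (if q ∣ vZ (ZA2 w H Y Om) z N p then (1 : ℝ) else 0) =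
      (((pr N (1 / 4) (667 / 1000)).filter (fun q => q ∣ n)).card : ℝ) := by
    rw [← Finset.sum_boole]
    apply Finset.sum_congr rfl
    intro q hq
    have := S.F3 hp hq
    rw [← hn] at this
    rw [if_congr this rfl rfl]
  rw [hI1, one_mul, hsum]
  have h2n : ¬ 2 ∣ n := by
    intro hd
    have := F2 2 Nat.prime_two hd
    have h4 := S.N4
    push_cast at this
    linarith
  have hn0 : 1 ≤ n := by
    rcases Nat.eq_zero_or_pos n with h0 | h0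
    · rw [h0] at h2n
      exact absurd (dvd_zero 2) h2n
    · exact h0
  have hn3 : n ≤ 3 * N ^ 2 := by
    have h1 := S.XN
    have h3 := S.N8
    have h4 : n ≤ X := by
      rw [hn]
      exact S.fv_le hp2 hp1'.1.1 hp1'.1.2
    nlinarith
  have hcard0 : (0 : ℝ) ≤ (((pr N (1 / 4) (667 / 1000)).filter (fun q => q ∣ n)).card : ℝ) := Nat.cast_nonneg _
  by_cases hB : p ∈ BD2 A B N z m a u w H
  · rw [if_pos hB]
    have h5 : (0 : ℝ) ≤ (if p ∈ GD2 A B N z Y m a u w H Om then (1 : ℝ) else 0) +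
      1 / 2 * (if p ∈ TY2 A B N z Y m a u w H Om then (1 : ℝ) else 0) := by split_ifs <;> norm_num
    linarith
  · have hsq : ∀ q : ℕ, q.Prime → q ^ 2 ∣ n → (N : ℝ) ^ (667 / 1000 : ℝ) ≤ q := by
      intro q hq hd
      by_contra hcon
      rw [not_le] at hcon
      apply hB
      unfold BD2
      rw [mem_filter]
      have hqn : q ∣ n := (dvd_pow_self q two_ne_zero).trans hd
      have hzq : z < q := by
        by_contra hzq
        rw [hn] at hqn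
        exact S.not_dvd_fv hp2 hq (by omega) hqn
      refine ⟨hp1, hp2, q, hq, hzq, ?_, by rw [← hn]; exact hd⟩
      rw [mem_Ioc, lo_lt_iff (by omega)]
      exact ⟨F2 q hq hqn, S.lt_N (by norm_num) hcon⟩
    rcases hW n hn0 hn3 F2 hsq with h6 | h6 | ⟨h6, h7⟩
    · have hG : p ∈ GD2 A B N z Y m a u w H Om := by
        unfold GD2
        rw [mem_filter, ← hn]
        exact ⟨hp1, hp2, F1, by omega, h6, F2⟩
      rw [if_pos hG]
      have h5 : (0 : ℝ) ≤ 1 / 2 * (if p ∈ TY2 A B N z Y m a u w H Om then (1 : ℝ) else 0) +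
        (if p ∈ BD2 A B N z m a u w H then (1 : ℝ) else 0) := by split_ifs <;> norm_num
      linarith
    · have h8 : (2 : ℝ) ≤ (((pr N (1 / 4) (667 / 1000)).filter (fun q => q ∣ n)).card : ℝ) := by
        exact_mod_cast h6
      linarith
    · have hT : p ∈ TY2 A B N z Y m a u w H Om := by
        unfold TY2
        rw [mem_filter, ← hn]
        exact ⟨hp1, hp2, F1, h7⟩
      rw [if_pos hT, h6]
      have h5 : (0 : ℝ) ≤ (if p ∈ GD2 A B N z Y m a u w H Om then (1 : ℝ) else 0) +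
        (if p ∈ BD2 A B N z m a u w H then (1 : ℝ) else 0) := by split_ifs <;> norm_num
      push_cast
      linarith

open Classical in
theorem St2.sum (S : St2 r N X z Y m a u A B ε w H Om)
    (hW : ∀ n : ℕ, 1 ≤ n → n ≤ 3 * N ^ 2 →
      (∀ p : ℕ, p.Prime → p ∣ n → (N : ℝ) ^ (1 / 4 : ℝ) ≤ p) →
      (∀ p : ℕ, p.Prime → p ^ 2 ∣ n → (N : ℝ) ^ (667 / 1000 : ℝ) ≤ p) →
      n.primeFactorsList.length ≤ 2 ∨ 2 ≤ ((pr N (1 / 4) (667 / 1000)).filter (fun q => q ∣ n)).card ∨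
      (((pr N (1 / 4) (667 / 1000)).filter (fun q => q ∣ n)).card = 1 ∧ Ty N n)) :
    ∑ p ∈ OO A B N z Y m a ε w H Om, II N ε (vZ (ZA2 w H Y Om) z N p) *
      (1 - 1 / 2 * ∑ q ∈ pr N (1 / 4) (667 / 1000), (if q ∣ vZ (ZA2 w H Y Om) z N p then 1 else 0)) ≤
    ((GD2 A B N z Y m a u w H Om).card : ℝ) + 1 / 2 * ((TY2 A B N z Y m a u w H Om).card : ℝ) +
      ((BD2 A B N z m a u w H).card : ℝ) := by
  refine (Finset.sum_le_sum fun p hp => S.point hW hp).trans ?_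
  rw [Finset.sum_add_distrib, Finset.sum_add_distrib, ← Finset.mul_sum]
  have key : ∀ T : Finset ℕ, ∑ p ∈ OO A B N z Y m a ε w H Om, (if p ∈ T then (1 : ℝ) else 0) ≤ T.card := by
    intro T
    rw [Finset.sum_boole]
    apply Nat.cast_le.2
    apply card_le_card
    intro p hp
    exact (mem_filter.1 hp).2
  have h1 := key (GD2 A B N z Y m a u w H Om)
  have h2 := key (TY2 A B N z Y m a u w H Om)
  have h3 := key (BD2 A B N z m a u w H)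
  linarith

end Pool.Agent.X32.CL
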