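import Pool.Agent.X32.CL.Fin2

/-!
Chen's theorem for two linear forms, inside sifted sets and in long intervals: assembly (adapted from
`Pool.Agent.Y843.CH.Fin3` of helper843 and `Pool.Agent.Y840.CI.Top` of helper840).
-/

set_option autoImplicit false

namespace Pool.Agent.X32.CL

open Finset Filter Pool.Agent.W23.DC Pool.Agent.Y660.RP
open Pool.Agent.Y843.HS (Pr VV Pr_mem Pr_prime VV_split card_res)
open Pool.Agent.Y843.HG (Adm Z0 SP V1 V1_bounds log_floor VV_low)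
open Pool.Agent.Y843.QD (vZ dvd_vZ)
open Pool.Agent.Y843.CH
open Pool.Agent.Y840.CI (MB' pnt_int lam_le')

theorem tot_mul {M : ℕ} (k : ℕ) : 0 < k → (∀ p : ℕ, p.Prime → p ∣ k → p ∣ M) →
    Nat.totient (k * M) = k * Nat.totient M := by
  induction k using Nat.strong_induction_on with
  | _ k ih =>
    intro hk h
    rcases Nat.lt_or_ge 1 k with h1 | h1
    · obtain ⟨p, hp, k', rfl⟩ := Nat.exists_prime_and_dvd (by omega : k ≠ 1)
      have hk' : 0 < k' := by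
        rcases Nat.eq_zero_or_pos k' with h0 | h0
        · rw [h0] at hk
          simp at hk
        · exact h0
      have hlt : k' < p * k' := by
        have := hp.two_le
        nlinarith
      rw [mul_assoc, Nat.totient_mul_of_prime_of_dvd hp ((h p hp (dvd_mul_right _ _)).mul_left _),
        ih k' hlt hk' (fun q hq hd => h q hq (hd.mul_left _)), mul_assoc]
    · have : k = 1 := by omega
      subst this
      simp

/-- the modulus -/
def Mz (z : ℕ) : ℕ := ∏ p ∈ Pr 0 z, p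

theorem Mz_pos (z : ℕ) : 0 < Mz z := prod_pos fun _ hp => (Pr_prime hp).pos

theorem Mz_prime {z q : ℕ} (hq : q.Prime) : q ∣ Mz z ↔ q ≤ z := by
  unfold Mz
  rw [hq.prime.dvd_finsetProd_iff]
  constructor
  · rintro ⟨p, hp, h⟩
    rw [(Nat.prime_dvd_prime_iff_eq hq (Pr_prime hp)).1 h]
    exact (Pr_mem.1 hp).1.2
  · intro h
    exact ⟨q, Pr_mem.2 ⟨⟨hq.pos, h⟩, hq⟩, dvd_rfl⟩

/-- the hypotheses of Chen's theorem for the forms `p` and `(w p + H) / u` -/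
structure CLd (r z Y X u : ℕ) (w H : ℤ) (a A B : ℕ) (Om : ℕ → Finset ℕ) : Prop where
  BX : B ≤ X
  tA : |w * A + H| ≤ u * X
  tB : |w * B + H| ≤ u * X
  H0 : H ≠ 0
  adm : Adm r Y Om
  hm : ∀ q ∈ Pr z Y, Cc w H q ∈ Z0 Om q
  cop : a.Coprime (u * Mz z)
  ua : (u : ℤ) ∣ w * a + H
  aq : ∀ q ∈ Pr 0 z, ¬ ((u * q : ℕ) : ℤ) ∣ w * a + H

/-- Chen's theorem for `√X ≤ A` -/
theorem chenL_of (hC : St_CORE) (hB : St_BVW) (hLv : St_BLV2) (hM : St_MASS) (hNm : St_NUM) (hW : St_WT)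
    (r z1 : ℕ) : ∃ z : ℕ, z1 ≤ z ∧ r + 5 ≤ z ∧ ∃ t : ℕ, 32 ≤ t ∧ ∀ u : ℕ, ∀ w : ℤ, 0 < u → w ≠ 0 → u ≤ z →
      w.natAbs ≤ z → ∃ c : ℝ, 0 < c ∧ ∀ θ : ℝ, 0 < θ → θ ≤ 1 →
      ∃ X₀ : ℕ, ∀ X : ℕ, X₀ ≤ X → ∀ (H : ℤ) (a A B : ℕ) (Om : ℕ → Finset ℕ),
      CLd r z ⌊(X : ℝ) ^ (1 / (t : ℝ))⌋₊ X u w H a A B Om → Nat.sqrt X ≤ A → A ≤ B → θ * X ≤ (B : ℝ) - A →
      c * ((B : ℝ) - A) * VV (Z0 Om) 0 ⌊(X : ℝ) ^ (1 / (t : ℝ))⌋₊ ≤
        ((GD2 A B (Nat.sqrt X) z ⌊(X : ℝ) ^ (1 / (t : ℝ))⌋₊ (u * Mz z) a u w H Om).card : ℝ) := by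
  classical
  obtain ⟨A0, C0, hA0, hcore⟩ := hC (r + 1) (by omega)
  set z := max (max C0 z1) (r + 5) with hz
  have hzC : C0 ≤ z := (le_max_left _ _).trans (le_max_left _ _)
  have hzr : r + 5 ≤ z := le_max_right _ _
  obtain ⟨ε, hε, hε8, N0, hN02, hN0⟩ := hcore z hzC (A0 / 10000) (by positivity)
  obtain ⟨t, ht⟩ : ∃ t : ℕ, t = ⌈4 / ε⌉₊ := ⟨_, rfl⟩
  have ht4 : 4 / ε ≤ t := by rw [ht]; exact Nat.le_ceil _
  have ht32 : 32 ≤ t := by
    have h1 : (32 : ℝ) ≤ 4 / ε := by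
      rw [le_div_iff₀ hε]
      linarith
    exact_mod_cast h1.trans ht4
  have ht1 : 1 ≤ t := by omega
  have ht0 : (0 : ℝ) < t := by exact_mod_cast ht1
  refine ⟨z, (le_max_right _ _).trans (le_max_left _ _), hzr, t, ht32, ?_⟩
  intro u w hu hw huz hwz
  have hur : (0 : ℝ) < u := by exact_mod_cast hu
  obtain ⟨m₀, hm₀⟩ : ∃ m₀ : ℕ, m₀ = u * Mz z := ⟨_, rfl⟩
  obtain ⟨m₁, hm₁⟩ : ∃ m₁ : ℕ, m₁ = m2 m₀ u w := ⟨_, rfl⟩
  have hMz := Mz_pos z
  have hm₁' : m₁ = w.natAbs * Mz z := by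
    rw [hm₁, m2, hm₀, Nat.mul_div_cancel_left _ hu]
  have hm₀1 : 0 < m₀ := by rw [hm₀]; positivity
  have hw1 : 0 < w.natAbs := Int.natAbs_pos.2 hw
  have hm₁1 : 0 < m₁ := by rw [hm₁']; positivity
  have hm₀z : ∀ q : ℕ, q.Prime → q ∣ m₀ → q ≤ z := by
    intro p hp h
    rw [hm₀] at h
    rcases (hp.dvd_mul).1 h with h | h
    · exact (Nat.le_of_dvd hu h).trans huz
    · exact (Mz_prime hp).1 h
  -- the totients
  have hφ0t : Nat.totient m₀ = u * Nat.totient (Mz z) := by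
    rw [hm₀]
    exact tot_mul u hu fun p hp hd => (Mz_prime hp).2 ((Nat.le_of_dvd hu hd).trans huz)
  have hφ1t : Nat.totient m₁ = w.natAbs * Nat.totient (Mz z) := by
    rw [hm₁']
    exact tot_mul _ hw1 fun p hp hd => (Mz_prime hp).2 ((Nat.le_of_dvd hw1 hd).trans hwz)
  have hφM : (0 : ℝ) < (Mz z).totient := by exact_mod_cast Nat.totient_pos.2 hMz
  have hφ0 : (0 : ℝ) < m₀.totient := by exact_mod_cast Nat.totient_pos.2 hm₀1
  have hφ1 : (0 : ℝ) < m₁.totient := by exact_mod_cast Nat.totient_pos.2 hm₁1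
  have hφr : (m₀.totient : ℝ) * w.natAbs = m₁.totient * u := by
    rw [hφ0t, hφ1t]
    push_cast
    ring
  set K := 2 * (r + 1) with hK
  obtain ⟨X1, hX1⟩ := aer2 hB m₀ (r + 1) (K + 4) (by omega) hm₀1
  obtain ⟨X2, hX2⟩ := ter2 hLv m₁ (r + 1) (K + 4) (by omega) hm₁1
  obtain ⟨N4, hN4⟩ := hW
  obtain ⟨cV, hcV, hV⟩ := VV_low (r + 1)
  obtain ⟨c1, C1, hc1, hC1, hVb⟩ := V1_bounds
  obtain ⟨X6, hX6⟩ := log_floor t ht1
  have hVz := V1_pos z
  set k := V1 z / (2 * t * C1) * (c1 / (t * C1)) ^ 2 with hk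
  have hk0 : 0 < k := by positivity
  set cm := 4 / 10000 * A0 * ε * k / m₀.totient with hcm
  have hcm0 : 0 < cm := by positivity
  refine ⟨cm / 2, by positivity, ?_⟩
  intro θ hθ hθ1
  have hzr0 : (5 : ℝ) ≤ z := by exact_mod_cast (by omega : 5 ≤ z)
  obtain ⟨δ, hδd⟩ : ∃ δ : ℝ, δ = θ / (8000 * z) := ⟨_, rfl⟩
  have hδ0 : 0 < δ := by rw [hδd]; positivity
  have hδ4 : δ ≤ 1 / 4000 := by
    rw [hδd, div_le_iff₀ (by positivity)]
    linarith
  have hδu : δ * u * 8000 ≤ θ := by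
    have h1 : (u : ℝ) ≤ z := by exact_mod_cast huz
    have h2 : δ * u * 8000 ≤ δ * z * 8000 := by gcongr
    refine h2.trans (le_of_eq ?_)
    rw [hδd]
    field_simp
  obtain ⟨N3, hN3⟩ := hM δ hδ0
  obtain ⟨N5, hN5⟩ := pnt_int θ hθ hθ1
  set CJ := 1 / Real.log (1 + δ) with hCJ
  have hCJ0 : 0 < CJ := by
    have : 0 < Real.log (1 + δ) := Real.log_pos (by linarith)
    positivity
  obtain ⟨ζ, hζ⟩ : ∃ ζ : ℝ, ζ = 4000 * z / θ := ⟨_, rfl⟩
  set b := max (max ⌈CJ + 2⌉₊ (8 * z + 5)) (max (2 * (r + 1) + 5) (max ⌈ζ⌉₊ 4000)) with hb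
  have hb1 : CJ + 2 ≤ b := by
    have h1 : ((⌈CJ + 2⌉₊ : ℕ) : ℝ) ≤ b := by
      exact_mod_cast (le_max_left _ _).trans (le_max_left _ _)
    exact (Nat.le_ceil _).trans h1
  have hb2 : 8 * z + 5 ≤ b := (le_max_right _ _).trans (le_max_left _ _)
  have hb3 : 2 * (r + 1) + 5 ≤ b := (le_max_left _ _).trans (le_max_right _ _)
  have hb4 : 4000 ≤ b := (le_max_right _ _).trans ((le_max_right _ _).trans (le_max_right _ _))
  have hb5 : 4000 * z / θ ≤ b := by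
    rw [← hζ]
    have h1 : ((⌈ζ⌉₊ : ℕ) : ℝ) ≤ b := by
      exact_mod_cast (le_max_left _ _).trans ((le_max_right _ _).trans (le_max_right _ _))
    exact (Nat.le_ceil _).trans h1
  obtain ⟨N7, hN7⟩ := sizes ε hε t ht4 K (cm * cV * θ / 4) (by positivity) b
  set NM := max (max (max N0 N3) (max N4 N5)) N7 with hNM
  refine ⟨max (max X1 X2) (max X6 ((NM + 1) ^ 2)), ?_⟩
  intro X hX H a A B Om E hNA hAB hθX
  have hBX := E.BX
  have hXX1 : X1 ≤ X := ((le_max_left _ _).trans (le_max_left _ _)).trans hX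
  have hXX2 : X2 ≤ X := ((le_max_right _ _).trans (le_max_left _ _)).trans hX
  have hXX6 : X6 ≤ X := ((le_max_left _ _).trans (le_max_right _ _)).trans hX
  have hXX7 : (NM + 1) ^ 2 ≤ X := ((le_max_right _ _).trans (le_max_right _ _)).trans hX
  set N := Nat.sqrt X with hN
  have hNX : N ^ 2 ≤ X := Nat.sqrt_le' X
  have hXN : X < (N + 1) ^ 2 := Nat.lt_succ_sqrt' X
  have hNMN : NM ≤ N := by
    exact le_sqrt_aux hXX7
  have hNN0 : N0 ≤ N := ((le_max_left _ _).trans ((le_max_left _ _).trans (le_max_left _ _))).trans hNMN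
  have hNN3 : N3 ≤ N := ((le_max_right _ _).trans ((le_max_left _ _).trans (le_max_left _ _))).trans hNMN
  have hNN4 : N4 ≤ N := ((le_max_left _ _).trans ((le_max_right _ _).trans (le_max_left _ _))).trans hNMN
  have hNN5 : N5 ≤ N := ((le_max_right _ _).trans ((le_max_right _ _).trans (le_max_left _ _))).trans hNMN
  have hNN7 : N7 ≤ N := (le_max_right _ _).trans hNMN
  obtain ⟨s1, s2, s3, s4, s5, s6, s7, s8, s9⟩ := hN7 N hNN7 X hNX hXN
  obtain ⟨y1, y2⟩ := hX6 X hXX6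
  set v := (X : ℝ) ^ (1 / (t : ℝ)) with hv
  set Y := ⌊v⌋₊ with hY
  have hw0 : 0 ≤ v := by positivity
  have hYw : (Y : ℝ) ≤ v := Nat.floor_le hw0
  have hbY : b ≤ Y := Nat.le_floor s5
  have hN4000 : 4000 ≤ N := hb4.trans s1
  have hNr : (4000 : ℝ) ≤ N := by exact_mod_cast hN4000
  have hX4 : 4000 ≤ X := le_of_sq_le hN4000 hNX
  have hXr : (4000 : ℝ) ≤ X := by exact_mod_cast hX4
  have hbX : (b : ℝ) ≤ X := by exact_mod_cast le_of_sq_le s1 hNX
  have hθX4 : 4000 * (u : ℝ) ≤ θ * X := by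
    have h1 := hb5.trans hbX
    rw [div_le_iff₀ hθ] at h1
    have h2 : (u : ℝ) ≤ z := by exact_mod_cast huz
    linarith
  -- the size of `H`
  have hHN : H.natAbs ≤ N ^ 3 := by
    have h1 := E.tB
    have h2 : |H| ≤ |w * B + H| + |w * B| := by
      have := abs_sub (w * B + H) (w * B)
      rwa [add_sub_cancel_left] at this
    have h3 : |w * (B : ℤ)| ≤ z * X := by
      rw [abs_mul, Nat.abs_cast, Int.abs_eq_natAbs]
      have h4 : ((w.natAbs : ℕ) : ℤ) ≤ z := by exact_mod_cast hwz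
      have h5 : ((B : ℕ) : ℤ) ≤ X := by exact_mod_cast hBX
      exact mul_le_mul h4 h5 (by positivity) (by positivity)
    have h4 : (u : ℤ) * X ≤ z * X := by
      have : (u : ℤ) ≤ z := by exact_mod_cast huz
      exact mul_le_mul_of_nonneg_right this (by positivity)
    have h5 : ((H.natAbs : ℕ) : ℤ) ≤ ((2 * (z * X) : ℕ) : ℤ) := by
      rw [← Int.abs_eq_natAbs]
      push_cast
      linarith
    have h6 : H.natAbs ≤ 2 * (z * X) := by exact_mod_cast h5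
    have h7 : X ≤ 4 * N ^ 2 := by nlinarith
    have h8 : 8 * z ≤ N := by omega
    calc H.natAbs ≤ 2 * (z * X) := h6
      _ ≤ 2 * (z * (4 * N ^ 2)) := by gcongr
      _ = (8 * z) * N ^ 2 := by ring
      _ ≤ N * N ^ 2 := by gcongr
      _ = N ^ 3 := by ring
  have hD : Dt r z Y u w H Om := ⟨E.adm, E.hm, fun q _ hq hd => by
      have := Nat.le_of_dvd hu hd
      omega, fun q _ hq hd => by
      have h1 : q ∣ w.natAbs := Int.natCast_dvd.1 hd
      have := Nat.le_of_dvd hw1 h1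
      omega⟩
  have S : St2 r N X z Y m₀ a u A B ε w H Om :=
    { D := hD
      N8 := by omega
      N4 := s2
      NX := hNX
      XN := hXN
      NA := hNA
      AB := hAB
      BX := hBX
      tA := E.tA
      tB := E.tB
      H0 := E.H0
      HN := hHN
      zY := by omega
      Yw := lt_of_le_of_lt hYw s6
      e0 := hε
      e1 := hε8
      u0 := hu
      w0 := hw
      m0 := hm₀1
      mz := hm₀z
      um := fun q hq => by
        rw [hm₀]
        apply mul_dvd_mul_left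
        exact (Mz_prime (Pr_prime hq)).2 (Pr_mem.1 hq).1.2
      u1 := by rw [hm₀]; exact dvd_mul_right _ _
      cop := by rw [hm₀]; exact E.cop
      ua := E.ua
      aq := E.aq }
  have hL : 0 < Real.log N := Real.log_pos (by linarith)
  obtain ⟨g1, g2⟩ := log_sq (show 4 ≤ N by omega) hNX hXN
  have hlX : 0 < Real.log X := by linarith
  have hL1 : 1 ≤ Real.log N := by
    have h1 : Real.exp 1 ≤ N := by linarith [Real.exp_one_lt_d9]
    rw [← Real.log_exp 1]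
    exact Real.log_le_log (Real.exp_pos 1) h1
  have hlX1 : 1 ≤ Real.log X := by linarith
  -- the number of blocks
  obtain ⟨J, hJd⟩ : ∃ J : ℕ, J = ⌈417 / 1000 * Real.log N / Real.log (1 + δ)⌉₊ := ⟨_, rfl⟩
  obtain ⟨hJ1, hlam, hJ2⟩ := lam_le' δ hδ0 N J (by omega) hJd
  rw [← hCJ] at hJ2
  -- the inputs for this `N`
  have hCB : CB (r + 1) z N ε A0 (A0 / 10000) := (hN0 N hNN0).2
  have hTE : TE (m2 m₀ u w) (r + 1) (K + 4) N X := by
    rw [← hm₁]
    exact hX2 X hXX2 N (by omega) hNX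
  have hMB : MB' N δ := hN3 N hNN3
  have hnotdvd : ∀ p ∈ Pr z N, ¬ p ∣ m₀ := by
    intro p hp hd
    have := hm₀z p (Pr_prime hp) hd
    have := (Pr_mem.1 hp).1.1
    omega
  have hEA := hX1 X hXX1 N (by omega) hNX A B hAB hBX z a (ZA2 w H Y Om) (hD.clA N) S.cop hnotdvd
  have hh0 : H.natAbs ≠ 0 := Int.natAbs_ne_zero.2 E.H0
  set V := ∏ p ∈ P1 N z ε, (1 - gC (ZA2 w H Y Om) p) with hVd
  have hEX : (0 : ℝ) ≤ X / Real.log X ^ (K + 4) := by positivity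
  -- the lower bound
  have hlow := (hCB ℕ ((PNX A B).filter (fun p => p ≡ a [MOD m₀])) (fun p => vZ (ZA2 w H Y Om) z N p)
    (gC (ZA2 w H Y Om)) ((PNX A B).card / (Nat.totient m₀ : ℝ)) H.natAbs (by positivity) hh0 hHN (by
      have h5 := hD.dg S.zY S.Yw
      exact h5)).1
  rw [← hVd] at hlow
  have hsum := S.sum (hN4 N hNN4)
  have hlow2 : ε * ((PNX A B).card / (Nat.totient m₀ : ℝ) * V) * (A0 * (1000 / 998 * LBc) - A0 / 10000) -
      Real.log N * (X / Real.log X ^ (K + 4)) ≤ ((GD2 A B N z Y m₀ a u w H Om).card : ℝ) +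
      1 / 2 * ((TY2 A B N z Y m₀ a u w H Om).card : ℝ) + ((BD2 A B N z m₀ a u w H).card : ℝ) := by
    refine le_trans ?_ hsum
    refine le_trans ?_ hlow
    have := mul_le_mul_of_nonneg_left hEA hL.le
    linarith
  -- the upper bound
  have hty := typ_le2 (δ := δ) S hJ1 hδ0.le
  have hbl : ∀ s : ℤ, (s = 1 ∨ s = -1) → ∑ j ∈ range J, ((FT2 A B N X J z Y m₀ a u ε δ w H Om s j).card : ℝ) ≤
      ε * ((∑ j ∈ range J, ms2 A B N X J u δ w H s j) / (Nat.totient m₁ : ℝ) * V) * (1000 / 998 * A0 + A0 / 10000) +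
        J * (Real.log N * (X / Real.log X ^ (K + 4))) := by
    intro s hs
    have h1 : ∀ j ∈ range J, ((FT2 A B N X J z Y m₀ a u ε δ w H Om s j).card : ℝ) ≤
        ε * (ms2 A B N X J u δ w H s j / (Nat.totient m₁ : ℝ) * V) * (1000 / 998 * A0 + A0 / 10000) +
          Real.log N * (X / Real.log X ^ (K + 4)) := fun j hj => by
      have h2 := block2 S hδ0 hδ4 hN4000 s7 hCB hTE hJ1 hlam hs (mem_range.1 hj)
      rw [← hm₁] at h2
      exact h2
    refine (Finset.sum_le_sum h1).trans (le_of_eq ?_)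
    rw [Finset.sum_add_distrib, Finset.sum_const, card_range, nsmul_eq_mul]
    congr 1
    rw [Finset.sum_div, Finset.sum_mul, Finset.mul_sum, Finset.sum_mul]
  obtain ⟨MS, hMS⟩ : ∃ MS : ℝ, MS = ∑ j ∈ range J, ms2 A B N X J u δ w H 1 j +
    ∑ j ∈ range J, ms2 A B N X J u δ w H (-1) j := ⟨_, rfl⟩
  have hup : ((TY2 A B N z Y m₀ a u w H Om).card : ℝ) ≤
      ε * ((MS * m₀.totient / m₁.totient) / (Nat.totient m₀ : ℝ) * V) *
        (1000 / 998 * A0 + A0 / 10000) + 2 * (J * (Real.log N * (X / Real.log X ^ (K + 4)))) := by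
    have h1 := hbl 1 (Or.inl rfl)
    have h2 := hbl (-1) (Or.inr rfl)
    have h3 : ((TY2 A B N z Y m₀ a u w H Om).card : ℝ) ≤
        ∑ j ∈ range J, ((FT2 A B N X J z Y m₀ a u ε δ w H Om 1 j).card : ℝ) +
        ∑ j ∈ range J, ((FT2 A B N X J z Y m₀ a u ε δ w H Om (-1) j).card : ℝ) := by
      exact_mod_cast hty
    have h5 : (MS * m₀.totient / m₁.totient) / (Nat.totient m₀ : ℝ) = MS / m₁.totient := by
      field_simp
    have h4 : ε * (MS / (Nat.totient m₁ : ℝ) * V) * (1000 / 998 * A0 + A0 / 10000) =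
        ε * ((∑ j ∈ range J, ms2 A B N X J u δ w H 1 j) / (Nat.totient m₁ : ℝ) * V) *
          (1000 / 998 * A0 + A0 / 10000) +
        ε * ((∑ j ∈ range J, ms2 A B N X J u δ w H (-1) j) / (Nat.totient m₁ : ℝ) * V) *
          (1000 / 998 * A0 + A0 / 10000) := by
      rw [hMS]
      ring
    rw [h5, h4]
    linarith
  -- the combination
  have hpl := S.prod_low (by omega) (by omega) (by omega)
  rw [← hVd] at hpl
  have hQ := VV_nonneg E.adm
  have hVY := V1_pos Y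
  have hVN := V1_pos N
  have hV0 : 0 ≤ V := le_trans (by positivity) hpl
  have hBA0 : 0 ≤ (B : ℝ) - A := by
    have : (A : ℝ) ≤ B := by exact_mod_cast hAB
    linarith
  have hW0 : (0 : ℝ) ≤ ((B : ℝ) - A) / Real.log N := by positivity
  obtain ⟨p1, p2⟩ := hN5 N hNN5 X hNX hXN A B hNA hAB hBX hθX
  have hM2 : MS * m₀.totient / m₁.totient ≤ 196 / 1000 * (((B : ℝ) - A) / Real.log N) := by
    have h1 := mass2b S hθ hδ0 hδ4 hδu hθX hθX4 hN4000 hMB hJ1 hlam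
    rw [← hMS] at h1
    rw [div_le_iff₀ hφ1]
    calc MS * m₀.totient ≤ 196 / 1000 * ((w.natAbs : ℝ) / u * (((B : ℝ) - A) / Real.log N)) * m₀.totient :=
          mul_le_mul_of_nonneg_right h1 hφ0.le
      _ = 196 / 1000 * (((B : ℝ) - A) / Real.log N) * ((m₀.totient * w.natAbs) / u) := by ring
      _ = 196 / 1000 * (((B : ℝ) - A) / Real.log N) * m₁.totient := by
          rw [hφr, mul_div_cancel_right₀ _ hur.ne']
  have hfin := arith_final hε hV0 hφ0 hA0 hNm.1 hW0 p1 p2 hM2 hlow2 hup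
  have hBD := BD_card2 S s3 s4
  have hkf := kfac hQ hVz hVY hVN hC1 hc1 ht0 hlX hL y2 g1 (hVb Y (by omega)).2 (hVb N (by omega)).1 hpl
  rw [← hk] at hkf
  have hml := main_low hA0 hε hφ0 hBA0 hL g1 hk0 hQ hkf
  rw [← hcm] at hml
  have hEr := errs_le (K := K) (c := cm * cV * θ / 4) (CJ := CJ) (b := b) hL (by linarith) hlX1
    (Nat.cast_nonneg X) hJ2 (Nat.cast_nonneg J) hCJ0.le hb1 s9 le_rfl hEX s8
  -- the lower bound for the product
  have hVVl := hV Y (by omega) (Z0 Om) (by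
    intro p hp
    refine ⟨?_, ?_, E.adm.lt hp⟩
    · rw [E.adm.card hp]
      have := (E.adm p hp).1
      omega
    · rw [E.adm.card hp]
      exact (E.adm p hp).2.1)
  have hYX : (Y : ℝ) ≤ X := by
    have h1 : v ≤ X := by
      calc v ≤ (X : ℝ) ^ (1 : ℝ) := by
            apply Real.rpow_le_rpow_of_exponent_le (by linarith)
            rw [div_le_one ht0]
            exact_mod_cast ht1
        _ = X := Real.rpow_one _
    linarith
  have hlYX : Real.log Y ≤ Real.log X :=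
    Real.log_le_log (by exact_mod_cast (show 0 < Y by omega)) hYX
  have hlY0 : 0 < Real.log Y := Real.log_pos (by exact_mod_cast (show 1 < Y by omega))
  have hVX : cV / Real.log X ^ K ≤ VV (Z0 Om) 0 Y := by
    refine le_trans ?_ hVVl
    apply div_le_div_of_nonneg_left hcV.le (by positivity)
    exact pow_le_pow_left₀ hlY0.le hlYX _
  have hE2 : 2 * (cm * cV * θ / 4) * (X / Real.log X ^ K) ≤ cm / 2 * ((B : ℝ) - A) * VV (Z0 Om) 0 Y := by
    have h1 : 2 * (cm * cV * θ / 4) * (X / Real.log X ^ K) = cm / 2 * (θ * X) * (cV / Real.log X ^ K) := by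
      ring
    rw [h1]
    have h2 : 0 ≤ cV / Real.log X ^ K := by positivity
    have h3 : 0 ≤ cm / 2 * ((B : ℝ) - A) := by positivity
    calc cm / 2 * (θ * X) * (cV / Real.log X ^ K) ≤ cm / 2 * ((B : ℝ) - A) * (cV / Real.log X ^ K) := by
          gcongr
      _ ≤ _ := mul_le_mul_of_nonneg_left hVX h3
  rw [← hm₀]
  linarith

theorem lin_between {w H : ℤ} {C : ℤ} {A A' B : ℕ} (h1 : A ≤ A') (h2 : A' ≤ B) (hA : |w * A + H| ≤ C)
    (hB : |w * B + H| ≤ C) : |w * A' + H| ≤ C := by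
  rw [_root_.abs_le] at hA hB ⊢
  have h1' : (A : ℤ) ≤ A' := by exact_mod_cast h1
  have h2' : (A' : ℤ) ≤ B := by exact_mod_cast h2
  rcases le_total 0 w with hw | hw
  · have e1 := mul_le_mul_of_nonneg_left h1' hw
    have e2 := mul_le_mul_of_nonneg_left h2' hw
    constructor <;> linarith
  · have e1 := mul_le_mul_of_nonpos_left h1' hw
    have e2 := mul_le_mul_of_nonpos_left h2' hw
    constructor <;> linarith

/-- **Chen's theorem for two linear forms**: primes `p` of an interval `(A, B]` of length at least `θ X`,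
`p ≡ a (mod u ∏_{q ≤ z} q)`, outside of given classes modulo the primes of `(z, X ^ (1/t)]`, such that
`|w p + H| / u` is a product of at most two primes. -/
theorem chenL (r z1 : ℕ) : ∃ z : ℕ, z1 ≤ z ∧ r + 5 ≤ z ∧ ∃ t : ℕ, 32 ≤ t ∧ ∀ u : ℕ, ∀ w : ℤ, 0 < u → w ≠ 0 → u ≤ z →
      w.natAbs ≤ z → ∃ c : ℝ, 0 < c ∧ ∀ θ : ℝ, 0 < θ →
      ∃ X₀ : ℕ, ∀ X : ℕ, X₀ ≤ X → ∀ (H : ℤ) (a A B : ℕ) (Om : ℕ → Finset ℕ),
      CLd r z ⌊(X : ℝ) ^ (1 / (t : ℝ))⌋₊ X u w H a A B Om → θ * X ≤ (B : ℝ) - A →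
      c * ((B : ℝ) - A) * VV (Z0 Om) 0 ⌊(X : ℝ) ^ (1 / (t : ℝ))⌋₊ ≤
        ((GD2 (max A (Nat.sqrt X)) B (Nat.sqrt X) z ⌊(X : ℝ) ^ (1 / (t : ℝ))⌋₊ (u * Mz z) a u w H Om).card : ℝ) := by
  obtain ⟨z, hz1, hz2, t, ht, H'⟩ := chenL_of Pool.Agent.Y261.CH.core Pool.Agent.Y932.CH.bvw
    blv2 (Pool.Agent.Y48.CH.mass Pool.Agent.Y484.CH.num) Pool.Agent.Y484.CH.num
    Pool.Agent.Y73.CH.wt r z1
  refine ⟨z, hz1, hz2, t, ht, fun u w hu hw huz hwz => ?_⟩
  obtain ⟨c, hc, H2⟩ := H' u w hu hw huz hwz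
  refine ⟨c / 2, by positivity, fun θ hθ => ?_⟩
  obtain ⟨X₀, hX₀⟩ := H2 (min (θ / 2) 1) (by positivity) (min_le_right _ _)
  have e1 : ∀ᶠ X : ℕ in atTop, (2 / θ + 1 : ℝ) ≤ (X : ℝ) ^ (1 / 2 : ℝ) :=
    ((tendsto_rpow_atTop (show (0 : ℝ) < 1 / 2 by norm_num)).comp
      tendsto_natCast_atTop_atTop).eventually (eventually_ge_atTop _)
  obtain ⟨X₁, h1⟩ := eventually_atTop.1 e1
  refine ⟨max (max X₀ X₁) 1, ?_⟩
  intro X hX H a A B Om E hθX
  have hX1 : 1 ≤ X := (le_max_right _ _).trans hX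
  have hX0 : (0 : ℝ) < X := by exact_mod_cast hX1
  have h2 := h1 X ((le_max_right _ _).trans ((le_max_left _ _).trans hX))
  -- `2 √X ≤ θ X`
  have h3 : 2 * (Nat.sqrt X : ℝ) ≤ θ * X := by
    have h4 : (Nat.sqrt X : ℝ) ≤ (X : ℝ) ^ (1 / 2 : ℝ) := by
      rw [← Real.sqrt_eq_rpow]
      exact Real.nat_sqrt_le_real_sqrt
    have h5 : (X : ℝ) = (X : ℝ) ^ (1 / 2 : ℝ) * (X : ℝ) ^ (1 / 2 : ℝ) := by
      rw [← Real.rpow_add hX0]
      norm_num
    have h6 : 2 / θ ≤ (X : ℝ) ^ (1 / 2 : ℝ) := by linarith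
    rw [div_le_iff₀ hθ] at h6
    have h7 : 0 < (X : ℝ) ^ (1 / 2 : ℝ) := by positivity
    calc 2 * (Nat.sqrt X : ℝ) ≤ 2 * (X : ℝ) ^ (1 / 2 : ℝ) := by linarith
      _ ≤ ((X : ℝ) ^ (1 / 2 : ℝ) * θ) * (X : ℝ) ^ (1 / 2 : ℝ) := mul_le_mul_of_nonneg_right h6 h7.le
      _ = θ * ((X : ℝ) ^ (1 / 2 : ℝ) * (X : ℝ) ^ (1 / 2 : ℝ)) := by ring
      _ = θ * X := by rw [← h5]
  have hθX0 : 0 < θ * (X : ℝ) := by positivity
  have hBX' : (B : ℝ) ≤ X := by exact_mod_cast E.BX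
  have hA0 : (0 : ℝ) ≤ A := Nat.cast_nonneg _
  set A' := max A (Nat.sqrt X) with hA'
  have hA'r : (A' : ℝ) = max (A : ℝ) (Nat.sqrt X) := by rw [hA']; push_cast; rfl
  have h8 : ((B : ℝ) - A) / 2 ≤ (B : ℝ) - A' := by
    rw [hA'r]
    rcases max_cases (A : ℝ) (Nat.sqrt X : ℝ) with ⟨e, _⟩ | ⟨e, _⟩ <;> rw [e] <;> linarith
  have h9 : A' ≤ B := by
    have : (A' : ℝ) ≤ B := by linarith
    exact_mod_cast this
  have h10 : min (θ / 2) 1 * X ≤ (B : ℝ) - A' := by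
    have : min (θ / 2) 1 * X ≤ θ / 2 * X := mul_le_mul_of_nonneg_right (min_le_left _ _) hX0.le
    linarith
  have E' : CLd r z ⌊(X : ℝ) ^ (1 / (t : ℝ))⌋₊ X u w H a A' B Om :=
    { E with tA := lin_between (le_max_left _ _) h9 E.tA E.tB }
  have h11 := hX₀ X ((le_max_left _ _).trans ((le_max_left _ _).trans hX)) H a A' B Om E'
    (le_max_right _ _) h9 h10
  have hQ := VV_nonneg E.adm
  refine le_trans ?_ h11
  apply mul_le_mul_of_nonneg_right _ hQ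
  calc c / 2 * ((B : ℝ) - A) = c * (((B : ℝ) - A) / 2) := by ring
    _ ≤ c * ((B : ℝ) - A') := mul_le_mul_of_nonneg_left h8 hc.le

end Pool.Agent.X32.CL
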