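import Pool.Agent.X32.CL.Pos2

/-!
The primes for which the second form is a product of three primes (adapted from `Pool.Agent.Y843.CH.Typ` of
helper843 and `Pool.Agent.Y840.CI.Loc` of helper840).
-/

set_option autoImplicit false

namespace Pool.Agent.X32.CL

open Finset Filter Pool.Agent.W23.DC Pool.Agent.Y660.RP
open Pool.Agent.Y843.HS (Pr Pr_mem Pr_prime)
open Pool.Agent.Y843.QD (vZ dvd_vZ)
open Pool.Agent.Y843.HG (Adm Z0)
open Pool.Agent.Y843.CH

/-- the real value of the second form -/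
noncomputable def tR (u : ℕ) (w H : ℤ) (y : ℝ) : ℝ := (w * y + H) / u

/-- the interval of the products -/
noncomputable def aJ (A B u : ℕ) (w H s : ℤ) : ℝ := max (min (s * tR u w H A) (s * tR u w H B) - 1) 0
noncomputable def bJ (A B u : ℕ) (w H s : ℤ) : ℝ := max (max (s * tR u w H A) (s * tR u w H B)) 0

/-- the modulus of the products -/
def m2 (m u : ℕ) (w : ℤ) : ℕ := w.natAbs * (m / u)

/-- the class of the products -/
def nc (m a u : ℕ) (w H s : ℤ) : ℕ := hr (s * ((w * a + H) / u)) (m2 m u w)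

open Classical in
/-- the block `(s, j)` -/
noncomputable def TB2 (A B N X J u : ℕ) (δ : ℝ) (w H s : ℤ) (j : ℕ) : Finset (ℕ × ℕ) :=
  MN (lo N (uj J j)) (lo N (uj J (j + 1)))
    (NN N (aJ A B u w H s / (N : ℝ) ^ uj J (j + 1)) ((bJ A B u w H s + δ * X) / (N : ℝ) ^ uj J j))

open Classical in
/-- the sifted block -/
noncomputable def FT2 (A B N X J z Y m a u : ℕ) (ε δ : ℝ) (w H : ℤ) (Om : ℕ → Finset ℕ) (s : ℤ) (j : ℕ) :
    Finset (ℕ × ℕ) :=
  ((TB2 A B N X J u δ w H s j).filter (fun x => x.1 * x.2 ≡ nc m a u w H s [MOD m2 m u w])).filter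
    (fun x => (∀ p ∈ P1 N z ε, ¬ p ∣ vZ (ZT2 u w H s Y Om) z N (x.1 * x.2)) ∧
      ∀ p ∈ pr N ε (7 / 20), ¬ p ∣ vZ (ZT2 u w H s Y Om) z N (x.1 * x.2))

variable {r N X z Y m a u A B J : ℕ} {ε δ : ℝ} {w H : ℤ} {Om : ℕ → Finset ℕ}

theorem tR_between (S : St2 r N X z Y m a u A B ε w H Om) {p : ℕ} (h1 : A < p) (h2 : p ≤ B) (s : ℤ) :
    min (s * tR u w H A) (s * tR u w H B) ≤ s * tR u w H p ∧
    s * tR u w H p ≤ max (s * tR u w H A) (s * tR u w H B) := by
  have hu : (0 : ℝ) < u := by exact_mod_cast S.u0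
  have h1' : (A : ℝ) ≤ p := by exact_mod_cast h1.le
  have h2' : (p : ℝ) ≤ B := by exact_mod_cast h2
  have key : ∀ y : ℝ, s * tR u w H y = (s * w / u : ℝ) * y + s * H / u := by
    intro y
    unfold tR
    ring
  rw [key, key, key]
  obtain ⟨c, hc⟩ : ∃ c : ℝ, c = (s * w / u : ℝ) := ⟨_, rfl⟩
  rw [← hc]
  rcases le_total 0 c with h | h
  · have e1 := mul_le_mul_of_nonneg_left h1' h
    have e2 := mul_le_mul_of_nonneg_left h2' h
    constructor
    · exact (min_le_left _ _).trans (by linarith)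
    · exact le_trans (by linarith) (le_max_right _ _)
  · have e1 := mul_le_mul_of_nonpos_left h1' h
    have e2 := mul_le_mul_of_nonpos_left h2' h
    constructor
    · exact (min_le_right _ _).trans (by linarith)
    · exact le_trans (by linarith) (le_max_left _ _)

theorem typ_mem2 (S : St2 r N X z Y m a u A B ε w H Om) (hJ : 1 ≤ J) (hδ : 0 ≤ δ)
    {p : ℕ} (hp : p ∈ TY2 A B N z Y m a u w H Om) :
    ∃ s : ℤ, (s = 1 ∨ s = -1) ∧ ∃ j < J, ∃ x ∈ FT2 A B N X J z Y m a u ε δ w H Om s j,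
      w * (p : ℤ) + H = s * u * ((x.1 * x.2 : ℕ) : ℤ) := by
  classical
  have hN : 2 ≤ N := by have := S.N8; omega
  unfold TY2 at hp
  rw [mem_filter, mem_PNX] at hp
  obtain ⟨⟨⟨hpA, hpB⟩, hpp⟩, hpa, hpq, p₁, p₂, p₃, h1, h2, h3, h4, h5, h6⟩ := hp
  have hNr : (1 : ℝ) < N := by exact_mod_cast (by omega : 1 < N)
  have hN0 : (0 : ℝ) < N := by linarith
  have hu0 : (0 : ℤ) < u := by exact_mod_cast S.u0
  have hur : (0 : ℝ) < u := by exact_mod_cast S.u0
  have h1p := (mem_pr.1 h1).2.1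
  obtain ⟨n, hn⟩ : ∃ n : ℕ, n = p₁ * (p₂ * p₃) := ⟨_, rfl⟩
  rw [← hn] at h6
  have hn0 : 0 < n := by
    rw [hn]
    exact Nat.mul_pos h1p.pos (Nat.mul_pos h2.pos h3.pos)
  obtain ⟨k, hk, hf⟩ := S.fv_eq hpa
  rw [hf] at h6
  obtain ⟨s, hs, hks⟩ : ∃ s : ℤ, (s = 1 ∨ s = -1) ∧ k = s * n := by
    rcases Int.natAbs_eq k with h | h
    · exact ⟨1, Or.inl rfl, by rw [h, h6, one_mul]⟩
    · exact ⟨-1, Or.inr rfl, by rw [h, h6, neg_one_mul]⟩
  have hss : s * s = 1 := by rcases hs with rfl | rfl <;> norm_num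
  have hps : w * (p : ℤ) + H = s * u * (n : ℤ) := by rw [hk, hks]; ring
  have hst : s * tR u w H p = (n : ℝ) := by
    unfold tR
    have e1 : (w : ℝ) * p + H = s * u * n := by exact_mod_cast hps
    rw [e1]
    have e2 : (s : ℝ) * s = 1 := by exact_mod_cast hss
    have e3 : (s : ℝ) * (s * u * n / u) = (s * s) * n := by field_simp
    rw [e3, e2, one_mul]
  obtain ⟨hb1, hb2⟩ := tR_between S hpA hpB s
  rw [hst] at hb1 hb2
  have hnr0 : (0 : ℝ) < n := by exact_mod_cast hn0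
  have hsa : aJ A B u w H s < n := by
    unfold aJ
    exact max_lt (by linarith) hnr0
  have hsb : (n : ℝ) ≤ bJ A B u w H s := hb2.trans (le_max_left _ _)
  obtain ⟨j, hj, hj1, hj2⟩ := exists_block hJ (mem_pr.1 h1).2.2.1 (mem_pr.1 h1).2.2.2
  refine ⟨s, hs, j, hj, (p₁, p₂ * p₃), ?_, by simp only; rw [← hn]; exact hps⟩
  have hu1 : uj J (j + 1) ≤ 1 := uj_le_one hJ hj
  have g1 := (le_tt_iff hN h1p _).1 hj1
  have g2 := (tt_lt_iff hN h1p _).1 hj2
  have hpj : 0 < (N : ℝ) ^ uj J j := Real.rpow_pos_of_pos hN0 _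
  have hpj1 : 0 < (N : ℝ) ^ uj J (j + 1) := Real.rpow_pos_of_pos hN0 _
  have h23 : (0 : ℝ) < (p₂ : ℝ) * p₃ := by
    have e1 : (0 : ℝ) < p₂ := by exact_mod_cast h2.pos
    have e2 : (0 : ℝ) < p₃ := by exact_mod_cast h3.pos
    positivity
  have hnr : (n : ℝ) = (p₁ : ℝ) * ((p₂ : ℝ) * p₃) := by rw [hn]; push_cast; ring
  have hlow : aJ A B u w H s / (N : ℝ) ^ uj J (j + 1) < (p₂ : ℝ) * p₃ := by
    rw [div_lt_iff₀ hpj1]
    calc aJ A B u w H s < n := hsa
      _ = (p₁ : ℝ) * ((p₂ : ℝ) * p₃) := hnr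
      _ ≤ (N : ℝ) ^ uj J (j + 1) * ((p₂ : ℝ) * p₃) := by gcongr
      _ = _ := by ring
  have hupp : (p₂ : ℝ) * p₃ ≤ (bJ A B u w H s + δ * X) / (N : ℝ) ^ uj J j := by
    rw [le_div_iff₀ hpj]
    calc (p₂ : ℝ) * p₃ * (N : ℝ) ^ uj J j ≤ (p₂ : ℝ) * p₃ * p₁ := by gcongr
      _ = n := by rw [hnr]; ring
      _ ≤ bJ A B u w H s + δ * X := by
          have : 0 ≤ δ * X := by positivity
          linarith
  have hfl : ∀ k : ℕ, k ≤ p₂ * p₃ → k ≤ ⌊(bJ A B u w H s + δ * X) / (N : ℝ) ^ uj J j⌋₊ := by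
    intro k hk
    apply Nat.le_floor
    refine le_trans ?_ hupp
    exact_mod_cast hk
  unfold FT2
  rw [mem_filter, mem_filter]
  refine ⟨⟨?_, ?_⟩, ?_, ?_⟩
  · unfold TB2 MN
    rw [mem_product, block_eq hN hu1]
    refine ⟨mem_pr.2 ⟨(mem_pr.1 h1).1, h1p, hj1, hj2⟩, ?_⟩
    unfold NN PP
    rw [mem_image]
    refine ⟨(p₂, p₃), ?_, rfl⟩
    rw [mem_filter, mem_product, mem_Icc, mem_Icc]
    exact ⟨⟨⟨h2.pos, hfl _ (Nat.le_mul_of_pos_right _ h3.pos)⟩,
      h3.pos, hfl _ (Nat.le_mul_of_pos_left _ h2.pos)⟩, h2, h3, h4, h5, hlow, hupp⟩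
  · simp only
    rw [← hn]
    -- the congruence
    obtain ⟨m', hm'⟩ := S.u1
    obtain ⟨k', hk'⟩ := S.ua
    have hm1 : m / u = m' := by rw [hm', Nat.mul_div_cancel_left _ S.u0]
    have hk1 : (w * (a : ℤ) + H) / u = k' := by rw [hk', Int.mul_ediv_cancel_left _ hu0.ne']
    have hm'0 : 0 < m' := by
      rcases Nat.eq_zero_or_pos m' with h0 | h0
      · have := S.m0
        rw [hm', h0] at this
        simp at this
      · exact h0
    have hm2 : 0 < m2 m u w := by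
      unfold m2
      rw [hm1]
      exact Nat.mul_pos (Int.natAbs_pos.2 S.w0) hm'0
    have hd : (m : ℤ) ∣ (p : ℤ) - a := (Nat.modEq_iff_dvd).1 hpa.symm
    obtain ⟨l, hl⟩ := hd
    have e1 : (u : ℤ) * (s * n - k') = u * (w * m' * l) := by
      have e2 : w * (p : ℤ) + H - (w * a + H) = w * (p - a) := by ring
      rw [hps, hk', hl, hm'] at e2
      push_cast at e2
      linear_combination e2
    have e3 := mul_left_cancel₀ hu0.ne' e1
    have e4 : ((m2 m u w : ℕ) : ℤ) ∣ (n : ℤ) - s * k' := by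
      have e5 : (n : ℤ) - s * k' = s * (w * m' * l) := by
        rw [← e3]
        linear_combination -hss * n
      rw [e5]
      unfold m2
      rw [hm1]
      push_cast
      have e6 : |w| * (m' : ℤ) ∣ w * m' * l := by
        apply Dvd.dvd.mul_right
        exact mul_dvd_mul_right ((abs_dvd w w).2 dvd_rfl) _
      exact e6.mul_left _
    unfold nc
    rw [hk1]
    have e6 : hr (n : ℤ) (m2 m u w) = hr (s * k') (m2 m u w) := by
      rw [hr_eq_iff _ _ hm2, Int.modEq_iff_dvd, ← Int.dvd_neg, neg_sub]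
      exact e4
    rw [hr_nat n hm2] at e6
    unfold Nat.ModEq
    rw [← e6, Nat.mod_mod]
  all_goals
    intro q hq hdv
    simp only at hdv
    rw [← hn] at hdv
    have hqp : q.Prime := by
      first
      | exact (mem_P1.1 hq).2.1
      | exact (mem_pr.1 hq).2.1
    obtain ⟨hqz, hqm⟩ := (dvd_vZ hqp).1 hdv
    have hzq := (Pr_mem.1 hqz).1.1
    have hRc : p % q = Rc u w H s q n := by
      rw [Rc_iff u w H s hqp.pos (cop_of hqp (S.D.cw q hqp hzq)), hps]
      simp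
    unfold ZT2 at hqm
    rw [mem_filter, Rc_mod, ← hRc] at hqm
    have hqm2 := hqm.2
    unfold ZTp at hqm2
    split_ifs at hqm2 with hY
    · exact hpq q (Pr_mem.2 ⟨⟨(Pr_mem.1 hqz).1.1, hY⟩, hqp⟩) hqm2
    · rw [mem_singleton] at hqm2
      have h7 := (Nat.prime_dvd_prime_iff_eq hqp hpp).1 (Nat.dvd_of_mod_eq_zero hqm2)
      have h8 := (Pr_mem.1 hqz).1.2
      have := S.NA
      omega

theorem typ_le2 (S : St2 r N X z Y m a u A B ε w H Om) (hJ : 1 ≤ J) (hδ : 0 ≤ δ) :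
    (TY2 A B N z Y m a u w H Om).card ≤ ∑ j ∈ range J, (FT2 A B N X J z Y m a u ε δ w H Om 1 j).card +
      ∑ j ∈ range J, (FT2 A B N X J z Y m a u ε δ w H Om (-1) j).card := by
  classical
  set f : ℤ → ℕ × ℕ → ℕ := fun s x => ((s * u * ((x.1 * x.2 : ℕ) : ℤ) - H) / w).toNat with hf
  have hsub : TY2 A B N z Y m a u w H Om ⊆
      ((range J).biUnion (fun j => (FT2 A B N X J z Y m a u ε δ w H Om 1 j).image (f 1))) ∪
      ((range J).biUnion (fun j => (FT2 A B N X J z Y m a u ε δ w H Om (-1) j).image (f (-1)))) := by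
    intro p hp
    obtain ⟨s, hs, j, hj, x, hx, hpx⟩ := typ_mem2 (ε := ε) (δ := δ) S hJ hδ hp
    have hfp : f s x = p := by
      rw [hf]
      simp only
      have e1 : s * u * ((x.1 * x.2 : ℕ) : ℤ) - H = w * p := by rw [← hpx]; ring
      rw [e1, Int.mul_ediv_cancel_left _ S.w0]
      exact Int.toNat_natCast p
    rw [mem_union]
    rcases hs with rfl | rfl
    · left
      rw [mem_biUnion]
      exact ⟨j, mem_range.2 hj, mem_image.2 ⟨x, hx, hfp⟩⟩
    · right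
      rw [mem_biUnion]
      exact ⟨j, mem_range.2 hj, mem_image.2 ⟨x, hx, hfp⟩⟩
  refine (card_le_card hsub).trans ((card_union_le _ _).trans ?_)
  exact add_le_add (card_biUnion_le.trans (sum_le_sum fun j _ => card_image_le))
    (card_biUnion_le.trans (sum_le_sum fun j _ => card_image_le))

end Pool.Agent.X32.CL
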